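import Pool.Agent.Y805.Mom

/-!
Characteristic three.
-/

set_option autoImplicit false

namespace Pool.Agent.Y805.Mom

open Finset Pool.Agent.Results.MP_487945_co.PositiveChar

universe u

section three

variable {k : Type u} [Field k]

def P3 (x : k) : Fin 4 → k := ![1, -x, 1 + x, 1 - x]
def Q3 (x : k) : Fin 4 → k := ![x, 1, 1 - x, -(1 + x)]

lemma cross3 (h3 : (3 : k) = 0) (x y : k) (a : Fin 4) :
    ∏ b : Fin 4, (P3 x a * Q3 y b - P3 y b * Q3 x a) =
      (y ^ 3 - y) * (x ^ 2 + 1) ^ 2 - (y ^ 2 + 1) ^ 2 * (x ^ 3 - x) := by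
  rw [Fin.prod_univ_four]
  fin_cases a
  · simp [P3, Q3]
    ring
  · simp [P3, Q3]
    ring
  · simp [P3, Q3]
    linear_combination (-1 * y + 1 * y ^ 3 + 1 * x + 2 * x * y ^ 2 + 1 * x * y ^ 4 -
      2 * x ^ 2 * y + 2 * x ^ 2 * y ^ 3 - 1 * x ^ 3 - 2 * x ^ 3 * y ^ 2 - 1 * x ^ 3 * y ^ 4 -
      1 * x ^ 4 * y + 1 * x ^ 4 * y ^ 3) * h3
  · simp [P3, Q3]
    linear_combination (-1 * y + 1 * y ^ 3 + 1 * x + 2 * x * y ^ 2 + 1 * x * y ^ 4 -
      2 * x ^ 2 * y + 2 * x ^ 2 * y ^ 3 - 1 * x ^ 3 - 2 * x ^ 3 * y ^ 2 - 1 * x ^ 3 * y ^ 4 -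
      1 * x ^ 4 * y + 1 * x ^ 4 * y ^ 3) * h3

lemma prod3 {B : Type u} [CommRing B] [Algebra k B] (L1 L2 : B)
    (hU : L1 ^ 3 * L2 - L1 * L2 ^ 3 = 0) (x : k) :
    ∏ b : Fin 4, (P3 x b • L1 + Q3 x b • L2) = (x ^ 3 - x) • (L1 ^ 2 + L2 ^ 2) ^ 2 := by
  rw [Fin.prod_univ_four]
  simp only [P3, Q3, Matrix.cons_val_zero, Matrix.cons_val_one,
    Matrix.cons_val_two, Matrix.head_cons, Matrix.tail_cons, Matrix.cons_val, Algebra.smul_def,
    map_add, map_one, map_pow, map_neg, map_sub]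
  set X := algebraMap k B x
  linear_combination (X ^ 2 + 1) ^ 2 * hU

lemma case_three' [Infinite k] [CharP k 3] (i : ℕ) :
    ∃ t : Fin 4 ⊕ (Fin (rr 3 i) × Fin 4) → k, Function.Injective t ∧
      (∀ v, t v ≠ 0) ∧
      ∀ (B : Type u) [CommRing B] [Algebra k B] (s t' : B),
      ∏ l, (s + t (Sum.inl l) • t') = 0 → ∏ r, (s + t (Sum.inr r) • t') = 0 →
      ∀ α β : k, (α • s + β • t') ^ (2 * 3 ^ i) = 0 := by
  have h3 : (3 : k) = 0 := by exact_mod_cast CharP.cast_eq_zero k 3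
  have h2 : (2 : k) ≠ 0 := by
    intro h
    have : (1 : k) = 0 := by linear_combination h3 - h
    exact one_ne_zero this
  have hfacs : ∀ x : k, x ^ 9 - x ≠ 0 → x ≠ 0 ∧ x - 1 ≠ 0 ∧ x + 1 ≠ 0 ∧ x ^ 2 + 1 ≠ 0 ∧
      x ^ 2 + x - 1 ≠ 0 ∧ x ^ 2 - x - 1 ≠ 0 := by
    intro x hx
    have hfac : x * (x - 1) * (x + 1) * (x ^ 2 + 1) * (x ^ 2 + x - 1) * (x ^ 2 - x - 1) ≠ 0 := by
      intro h
      apply hx
      linear_combination h + (x ^ 7 - x ^ 3) * h3
    exact ⟨fun h => hfac (by rw [h]; ring), fun h => hfac (by rw [h]; ring),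
      fun h => hfac (by rw [h]; ring), fun h => hfac (by rw [h]; ring),
      fun h => hfac (by rw [h]; ring), fun h => hfac (by rw [h]; ring)⟩
  have hmu : ∀ x : k, x ^ 9 - x ≠ 0 → x ^ 3 - x ≠ 0 := by
    intro x hx h
    obtain ⟨a1, a2, a3, _⟩ := hfacs x hx
    have h4 : x * (x - 1) * (x + 1) = 0 := by linear_combination h
    rcases mul_eq_zero.1 h4 with h5 | h5
    · rcases mul_eq_zero.1 h5 with h6 | h6
      · exact a1 h6
      · exact a2 h6
    · exact a3 h5
  have hg0 : (Polynomial.X ^ 9 - Polynomial.X : Polynomial k) ≠ 0 :=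
    FiniteField.X_pow_card_sub_X_ne_zero k (by norm_num)
  obtain ⟨g, hg1, hg2⟩ := exists_seq' (k := k) (Polynomial.X ^ 9 - Polynomial.X) hg0
    (fun x => Polynomial.C ((x ^ 2 + 1) ^ 2) * (Polynomial.X ^ 3 - Polynomial.X) -
      Polynomial.C (x ^ 3 - x) * (Polynomial.X ^ 4 + Polynomial.C 2 * Polynomial.X ^ 2 + 1))
    (fun x hx h => by
      simp only [Polynomial.eval_sub, Polynomial.eval_pow, Polynomial.eval_X] at hx
      have h3 := congrArg (fun f => Polynomial.coeff f 4) h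
      simp only [Polynomial.coeff_sub, Polynomial.coeff_C_mul, Polynomial.coeff_add,
        Polynomial.coeff_X_pow, Polynomial.coeff_X, Polynomial.coeff_one,
        Polynomial.coeff_zero] at h3
      norm_num at h3
      apply hmu x hx
      first
        | linear_combination h3
        | linear_combination -h3)
    (fun x y h => by
      simp only [Polynomial.eval_sub, Polynomial.eval_pow, Polynomial.eval_X,
        Polynomial.eval_C, Polynomial.eval_mul, Polynomial.eval_add, Polynomial.eval_one] at h ⊢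
      linear_combination -h)
  simp only [Polynomial.eval_sub, Polynomial.eval_pow, Polynomial.eval_X, Polynomial.eval_C,
    Polynomial.eval_mul, Polynomial.eval_add, Polynomial.eval_one] at hg1 hg2
  let P : Fin 4 ⊕ (Fin (rr 3 i) × Fin 4) → k := fun v =>
    v.elim ![1, 0, 1, 1] (fun z => P3 (g z.1) z.2)
  let Q : Fin 4 ⊕ (Fin (rr 3 i) × Fin 4) → k := fun v =>
    v.elim ![0, 1, 1, -1] (fun z => Q3 (g z.1) z.2)
  have hmix : ∀ (u : Fin 4) (n : ℕ) (v : Fin 4),
      (![1, 0, 1, 1] : Fin 4 → k) u * Q3 (g n) v ≠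
        P3 (g n) v * (![0, 1, 1, -1] : Fin 4 → k) u := by
    intro u n v h
    obtain ⟨hx0, hx1, hx1', _⟩ := hfacs (g n) (hg1 n)
    generalize g n = x at h hx0 hx1 hx1'
    fin_cases u <;> fin_cases v <;> simp only [P3, Q3, Matrix.cons_val_zero, Matrix.cons_val_one,
      Matrix.cons_val_two, Matrix.head_cons, Matrix.tail_cons, Matrix.cons_val, Fin.zero_eta,
      Fin.mk_one, Fin.reduceFinMk] at h
    all_goals first
      | exact h2 (by linear_combination h)
      | exact h2 (by linear_combination -h)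
      | exact one_ne_zero (by linear_combination h : (1 : k) = 0)
      | exact one_ne_zero (by linear_combination -h : (1 : k) = 0)
      | exact hx0 (by linear_combination h)
      | exact hx0 (by linear_combination -h)
      | exact hx1 (by linear_combination h)
      | exact hx1 (by linear_combination -h)
      | exact hx1' (by linear_combination h)
      | exact hx1' (by linear_combination -h)
      | exact (mul_ne_zero h2 hx0) (by linear_combination h)
      | exact (mul_ne_zero h2 hx0) (by linear_combination -h)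
  have hsame : ∀ (n : ℕ) (u v : Fin 4), u ≠ v →
      P3 (g n) u * Q3 (g n) v ≠ P3 (g n) v * Q3 (g n) u := by
    intro n u v huv h
    obtain ⟨hx0, hx1, hx1', hx2, hx3, hx4⟩ := hfacs (g n) (hg1 n)
    generalize g n = x at h hx0 hx1 hx1' hx2 hx3 hx4
    fin_cases u <;> fin_cases v <;> (try exact huv rfl) <;>
      simp only [P3, Q3, Matrix.cons_val_zero, Matrix.cons_val_one,
      Matrix.cons_val_two, Matrix.head_cons, Matrix.tail_cons, Matrix.cons_val, Fin.zero_eta,
      Fin.mk_one, Fin.reduceFinMk] at h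
    all_goals first
      | exact hx2 (by linear_combination h)
      | exact hx2 (by linear_combination -h)
      | exact hx2 (by linear_combination h + (x ^ 2 + 1) * h3)
      | exact hx2 (by linear_combination -h + (x ^ 2 + 1) * h3)
      | exact hx2 (by linear_combination h - (x ^ 2 + 1) * h3)
      | exact hx2 (by linear_combination -h - (x ^ 2 + 1) * h3)
      | exact hx3 (by linear_combination h + x * h3)
      | exact hx3 (by linear_combination -h + x * h3)
      | exact hx3 (by linear_combination h - x * h3)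
      | exact hx3 (by linear_combination -h - x * h3)
      | exact hx4 (by linear_combination h + x * h3)
      | exact hx4 (by linear_combination -h + x * h3)
      | exact hx4 (by linear_combination h - x * h3)
      | exact hx4 (by linear_combination -h - x * h3)
  have hconst : ∀ u v : Fin 4, u ≠ v → (![1, 0, 1, 1] : Fin 4 → k) u *
      (![0, 1, 1, -1] : Fin 4 → k) v ≠ (![1, 0, 1, 1] : Fin 4 → k) v *
      (![0, 1, 1, -1] : Fin 4 → k) u := by
    intro u v huv h
    fin_cases u <;> fin_cases v <;> (try exact huv rfl) <;>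
      simp only [Matrix.cons_val_zero, Matrix.cons_val_one,
      Matrix.cons_val_two, Matrix.head_cons, Matrix.tail_cons, Matrix.cons_val, Fin.zero_eta,
      Fin.mk_one, Fin.reduceFinMk] at h
    all_goals first
      | exact h2 (by linear_combination h)
      | exact h2 (by linear_combination -h)
      | exact one_ne_zero (by linear_combination h : (1 : k) = 0)
      | exact one_ne_zero (by linear_combination -h : (1 : k) = 0)
  have hPQ : ∀ u v, u ≠ v → P u * Q v ≠ P v * Q u := by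
    rintro (u | ⟨j, u⟩) (v | ⟨j', v⟩) huv h
    · exact hconst u v (fun h => huv (by rw [h])) h
    · exact hmix u j' v h
    · exact hmix v j u (by
        have h' : P3 (g j) u * (![0, 1, 1, -1] : Fin 4 → k) v =
          (![1, 0, 1, 1] : Fin 4 → k) v * Q3 (g j) u := h
        rw [h'])
    · by_cases hjj : j = j'
      · subst hjj
        exact hsame j u v (fun h => huv (by rw [h])) h
      · have h' : P3 (g j) u * Q3 (g j') v - P3 (g j') v * Q3 (g j) u = 0 := sub_eq_zero.2 h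
        have h5 := cross3 h3 (g j) (g j') u
        rw [Finset.prod_eq_zero (Finset.mem_univ v) h'] at h5
        have h4 : (j : ℕ) ≠ (j' : ℕ) := fun h => hjj (Fin.ext h)
        exact hg2 j j' h4 (by linear_combination -h5)
  obtain ⟨t, ht, ht0, hk⟩ := moebius (L := Fin 4) (R := Fin (rr 3 i) × Fin 4) P Q hPQ (by simp)
  refine ⟨t, ht, ht0, ?_⟩
  intro B _ _ s t' hL hR α β
  obtain ⟨L1, L2, hF, hG, hlin⟩ := hk B s t' hL hR
  obtain ⟨α', β', hαβ⟩ := hlin α β
  rw [hαβ]
  have h3B : (3 : B) = 0 := by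
    have := congrArg (algebraMap k B) h3
    rwa [map_ofNat, map_zero] at this
  have hU : L1 ^ 3 * L2 - L1 * L2 ^ 3 = 0 := by
    rw [Fin.prod_univ_four] at hF
    simp only [P, Q, Sum.elim_inl, Matrix.cons_val_zero, Matrix.cons_val_one,
      Matrix.cons_val_two, Matrix.head_cons, Matrix.tail_cons, Matrix.cons_val, one_smul,
      zero_smul, neg_smul] at hF
    linear_combination hF
  have hW : ((L1 ^ 2 + L2 ^ 2) ^ 2) ^ (rr 3 i) = 0 := by
    rw [Fintype.prod_prod_type] at hG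
    have hG' : ∏ j : Fin (rr 3 i), ∏ b : Fin 4, (P3 (g j) b • L1 + Q3 (g j) b • L2) = 0 := hG
    have e : ∀ j : Fin (rr 3 i), ∏ b : Fin 4, (P3 (g j) b • L1 + Q3 (g j) b • L2) =
        (g j ^ 3 - g j) • (L1 ^ 2 + L2 ^ 2) ^ 2 := fun j => prod3 L1 L2 hU (g j)
    simp only [e] at hG'
    rw [Finset.prod_smul, Finset.prod_const, Finset.card_univ, Fintype.card_fin] at hG'
    rcases smul_eq_zero.mp hG' with h | h
    · exfalso
      rw [Finset.prod_eq_zero_iff] at h
      obtain ⟨j, _, hj⟩ := h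
      exact hmu (g j) (hg1 j) hj
    · exact h
  have hS : ∀ a ∈ {a : B | ∃ α β γ : k, a = α • L1 ^ 2 + β • (L1 * L2) + γ • L2 ^ 2},
      ∃ b ∈ {a : B | ∃ α β γ : k, a = α • L1 ^ 2 + β • (L1 * L2) + γ • L2 ^ 2},
        a ^ 3 = b * (L1 ^ 2 + L2 ^ 2) ^ 2 := by
    rintro _ ⟨α, β, γ, rfl⟩
    refine ⟨α ^ 3 • L1 ^ 2 + β ^ 3 • (L1 * L2) + γ ^ 3 • L2 ^ 2, ⟨_, _, _, rfl⟩, ?_⟩
    simp only [Algebra.smul_def, map_pow]
    set a := algebraMap k B α
    set b := algebraMap k B β
    set c := algebraMap k B γ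
    linear_combination (a ^ 3 * L1 * L2 - c ^ 3 * L1 * L2 - b ^ 3 * (L1 ^ 2 - L2 ^ 2)) * hU +
      (-a ^ 3 * L1 ^ 4 * L2 ^ 2 - c ^ 3 * L1 ^ 2 * L2 ^ 4 - b ^ 3 * L1 ^ 3 * L2 ^ 3 +
        a ^ 2 * b * L1 ^ 5 * L2 + a ^ 2 * c * L1 ^ 4 * L2 ^ 2 + a * b ^ 2 * L1 ^ 4 * L2 ^ 2 +
        2 * a * b * c * L1 ^ 3 * L2 ^ 3 + b ^ 2 * c * L1 ^ 2 * L2 ^ 4 +
        a * c ^ 2 * L1 ^ 2 * L2 ^ 4 + b * c ^ 2 * L1 * L2 ^ 5) * h3B
  obtain ⟨b, _, hb⟩ := frob_iter 3 ((L1 ^ 2 + L2 ^ 2) ^ 2) _ hS i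
    ((α' • L1 + β' • L2) ^ 2) ⟨α' ^ 2, 2 * α' * β', β' ^ 2, by
      simp only [Algebra.smul_def, map_pow, map_mul, map_ofNat]
      ring⟩
  rw [pow_mul, hb, hW, mul_zero]

end three

end Pool.Agent.Y805.Mom
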