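import Pool.Agent.Y805.PolC

set_option autoImplicit false
open Filter Topology MeasureTheory Set
open scoped ENNReal

namespace Pool.Agent.Y805.Pol

variable {K : Set ℝ}

lemma cth_tendsto (hK : K ⊆ Icc 0 1) (hc : IsCompact K) :
    Tendsto (fun l => (volume (Metric.cthickening l K)).toReal) (𝓝 0) (𝓝 (volume K).toReal) := by
  have h := tendsto_measure_cthickening_of_isCompact (μ := (volume : Measure ℝ)) hc
  exact (ENNReal.tendsto_toReal (vol_fin' hK)).comp h

lemma exists_rho {s : ℝ} (hs : 0 < s) {B : ℝ≥0∞} (hB : B ≠ ⊤) :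
    ∃ ρ : ℝ, 0 < ρ ∧ B ≤ (ENNReal.ofReal (2 * ρ)) ^ (-s) := by
  have h0 : 0 < B.toReal + 1 := by positivity
  refine ⟨(B.toReal + 1) ^ (-(1 / s)) / 2, by positivity, ?_⟩
  rw [mul_div_cancel₀ _ (two_ne_zero), ofReal_rpow_neg (by positivity), ← Real.rpow_mul h0.le]
  have : -(1 / s) * -s = 1 := by field_simp
  rw [this, Real.rpow_one]
  refine ENNReal.le_ofReal_iff_toReal_le hB h0.le |>.2 (by linarith)

lemma rpow_neg_le_one {s θ : ℝ} (hs : 0 < s) (hθ : 1 ≤ θ) : (ENNReal.ofReal θ) ^ (-s) ≤ 1 := by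
  have := rpow_anti hs.le (a := 1) (b := ENNReal.ofReal θ) (by simpa using hθ)
  simpa using this

lemma shift_bound {s : ℝ} (hs : 0 < s) {M : ℕ} (z : Fin M → ℝ) {B : ℝ≥0∞} (hB : B ≠ ⊤)
    (hz : ∀ t ∈ Icc (0 : ℝ) 1, B ≤ ∑ j, (ENNReal.ofReal |t - z j|) ^ (-s)) {θ : ℝ} (hθ : 1 < θ) :
    ∃ δ : ℝ, 0 < δ ∧ δ ≤ 1 / 2 ∧ ∀ t ∈ Icc (0 : ℝ) 1, (ENNReal.ofReal θ) ^ (-s) * B ≤
      ∑ j, (ENNReal.ofReal (|t - z j| + δ)) ^ (-s) := by
  obtain ⟨ρ, hρ, hρB⟩ := exists_rho hs hB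
  have hτ : 0 < θ - 1 := by linarith
  refine ⟨min ρ (min (ρ * (θ - 1)) (1 / 2)), by positivity, (min_le_right _ _).trans (min_le_right _ _), ?_⟩
  intro t ht
  set δ := min ρ (min (ρ * (θ - 1)) (1 / 2)) with hδ
  have h1 : δ ≤ ρ := min_le_left _ _
  have h2 : δ ≤ ρ * (θ - 1) := (min_le_right _ _).trans (min_le_left _ _)
  by_cases hcase : ∃ j, |t - z j| ≤ ρ
  · obtain ⟨j, hj⟩ := hcase
    calc (ENNReal.ofReal θ) ^ (-s) * B ≤ 1 * B := mul_le_mul_left (rpow_neg_le_one hs hθ.le) B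
      _ = B := one_mul B
      _ ≤ (ENNReal.ofReal (2 * ρ)) ^ (-s) := hρB
      _ ≤ (ENNReal.ofReal (|t - z j| + δ)) ^ (-s) :=
          rpow_anti hs.le (ENNReal.ofReal_le_ofReal (by linarith))
      _ ≤ _ := Finset.single_le_sum (f := fun j => (ENNReal.ofReal (|t - z j| + δ)) ^ (-s))
          (fun _ _ => zero_le) (Finset.mem_univ j)
  · push Not at hcase
    refine (mul_le_mul_right (hz t ht) _).trans ?_
    rw [Finset.mul_sum]
    refine Finset.sum_le_sum fun j _ => ?_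
    have hθ0 : ENNReal.ofReal θ ≠ 0 := by
      simp only [ne_eq, ENNReal.ofReal_eq_zero, not_le]
      linarith
    rw [← mul_rpow_neg hs.le hθ0 ENNReal.ofReal_ne_top, ← ENNReal.ofReal_mul (by linarith)]
    refine rpow_anti hs.le (ENNReal.ofReal_le_ofReal ?_)
    nlinarith [hcase j]

/-- The lower bound. -/
theorem lower {s : ℝ} (hs : 0 < s) (hK : K ⊆ Icc 0 1) (hc : IsCompact K) (hne : K.Nonempty)
    (hv : 0 < volume K) {M : ℕ} (hM : 1 ≤ M) (z : Fin M → ℝ) (hzI : ∀ j, z j ∈ Icc (0 : ℝ) 1)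
    {B : ℝ≥0∞} (hB : B ≠ ⊤)
    (hz : ∀ t ∈ Icc (0 : ℝ) 1, B ≤ ∑ j, (ENNReal.ofReal |t - z j|) ^ (-s)) {τ : ℝ} (hτ : 0 < τ) :
    ∀ᶠ N : ℕ in atTop,
      (ENNReal.ofReal ((1 + τ) * (M * (volume K).toReal) / N)) ^ (-s) *
        ((ENNReal.ofReal (1 + τ)) ^ (-s) * B) ≤ pol s K N := by
  obtain ⟨δ, hδ, hδ2, hδz⟩ := shift_bound hs z hB hz (show (1 : ℝ) < 1 + τ by linarith)
  set B' := (ENNReal.ofReal (1 + τ)) ^ (-s) * B with hB'
  have hB'fin : B' ≠ ⊤ := by
    have : B' ≤ 1 * B := mul_le_mul_left (rpow_neg_le_one hs (by linarith)) B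
    rw [one_mul] at this
    exact ne_top_of_le_ne_top hB this
  obtain ⟨R, hR⟩ := ENNReal.exists_nat_gt hB'fin
  set lam := (volume K).toReal with hlam
  have hlam0 : 0 < lam := ENNReal.toReal_pos hv.ne' (vol_fin' hK)
  have hM0 : (0 : ℝ) < M := by exact_mod_cast hM
  set κ := τ * (M * lam) with hκ
  have hκ0 : 0 < κ := by positivity
  have hlim : Tendsto (fun l => (M : ℝ) * (volume (Metric.cthickening l K)).toReal +
      R * (((volume (Metric.cthickening l K)).toReal - lam) / δ)) (𝓝 0) (𝓝 (M * lam + R * ((lam - lam) / δ))) := by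
    have h := cth_tendsto hK hc
    exact (h.const_mul _).add (((h.sub_const _).div_const _).const_mul _)
  have hev : ∀ᶠ l in 𝓝 (0 : ℝ), (M : ℝ) * (volume (Metric.cthickening l K)).toReal +
      R * (((volume (Metric.cthickening l K)).toReal - lam) / δ) < M * lam + κ := by
    refine hlim.eventually_lt_const ?_
    rw [sub_self, zero_div, mul_zero, add_zero]
    linarith
  have hseq : Tendsto (fun N : ℕ => (1 + τ) * (M * lam) / (N : ℝ)) atTop (𝓝 0) :=
    tendsto_const_div_atTop_nhds_zero_nat _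
  filter_upwards [hseq.eventually hev, eventually_ge_atTop 1] with N hN hN1
  have hN0 : (0 : ℝ) < N := by exact_mod_cast hN1
  refine tile_bound hs hK hc hne z hzI hδ hδ2 (by positivity) R hR.le hδz ?_
  refine hN.le.trans (le_of_eq ?_)
  rw [mul_div_cancel₀ _ hN0.ne', hκ]
  ring

/-- The limit of `pol_s(K; N) / N^s`. -/
noncomputable def lim (s : ℝ) (K : Set ℝ) : ℝ≥0∞ :=
  ⨆ (M : ℕ) (_ : 1 ≤ M), (volume K) ^ (-s) * (pol s (Icc 0 1) M / (M : ℝ≥0∞) ^ s)

theorem main {s : ℝ} (hs : 1 < s) (hK : K ⊆ Icc 0 1) (hc : IsCompact K) (hne : K.Nonempty)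
    (hv : 0 < volume K) :
    lim s K ≠ ⊤ ∧ Tendsto (fun N : ℕ => pol s K N / (N : ℝ≥0∞) ^ s) atTop (𝓝 (lim s K)) := by
  have hs0 : 0 < s := by linarith
  have hVt : (volume K) ^ (-s) ≠ ⊤ := by
    simp [ENNReal.rpow_eq_top_iff, hv.ne', vol_fin' hK]
  have hV0 : (volume K) ^ (-s) ≠ 0 := by
    simp [ENNReal.rpow_eq_zero_iff, hv.ne', vol_fin' hK]
  set lam := (volume K).toReal with hlam
  have hlam0 : 0 < lam := ENNReal.toReal_pos hv.ne' (vol_fin' hK)
  have hNpow : ∀ N : ℕ, 1 ≤ N → ((N : ℝ≥0∞) ^ s ≠ 0 ∧ (N : ℝ≥0∞) ^ s ≠ ⊤) := by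
    intro N hN
    constructor
    · simp only [ne_eq, ENNReal.rpow_eq_zero_iff, Nat.cast_eq_zero, not_or, not_and]
      exact ⟨fun h => absurd h (by omega), fun h => absurd h (by simp)⟩
    · simp only [ne_eq, ENNReal.rpow_eq_top_iff, Nat.cast_eq_zero, not_or, not_and]
      exact ⟨fun h => absurd h (by omega), fun h => absurd h (by simp)⟩
  constructor
  · have : lim s K ≤ (volume K) ^ (-s) * ENNReal.ofReal (4 ^ s / (s - 1)) := by
      refine iSup₂_le fun M hM => mul_le_mul_right ?_ _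
      rw [ENNReal.div_le_iff (hNpow M hM).1 (hNpow M hM).2]
      exact pol_Icc_le hs hM
    exact ne_top_of_le_ne_top (ENNReal.mul_ne_top hVt ENNReal.ofReal_ne_top) this
  · rw [tendsto_order]
    constructor
    · intro c hcl
      rw [lim, lt_iSup_iff] at hcl
      obtain ⟨M, hcl⟩ := hcl
      rw [lt_iSup_iff] at hcl
      obtain ⟨hM, hcl⟩ := hcl
      have hM0 : (0 : ℝ) < M := by exact_mod_cast hM
      -- rewrite the constant
      set g : ℝ≥0∞ := (ENNReal.ofReal (M * lam)) ^ (-s) with hg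
      have hgne : ENNReal.ofReal (M * lam) ≠ 0 := by
        simp only [ne_eq, ENNReal.ofReal_eq_zero, not_le]
        positivity
      have hg0 : g ≠ 0 := by
        rw [hg, ne_eq, ENNReal.rpow_eq_zero_iff]
        rintro (⟨h, -⟩ | ⟨h, -⟩)
        · exact hgne h
        · exact ENNReal.ofReal_ne_top h
      have hgt : g ≠ ⊤ := by
        rw [hg, ne_eq, ENNReal.rpow_eq_top_iff]
        rintro (⟨h, -⟩ | ⟨h, -⟩)
        · exact hgne h
        · exact ENNReal.ofReal_ne_top h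
      have hgeq : (volume K) ^ (-s) * (pol s (Icc 0 1) M / (M : ℝ≥0∞) ^ s) = g * pol s (Icc 0 1) M := by
        rw [hg, ENNReal.ofReal_mul hM0.le, ENNReal.ofReal_natCast,
          mul_rpow_neg hs0.le (by simpa using hM0.ne') (by simp), hlam, ENNReal.ofReal_toReal (vol_fin' hK),
          div_eq_mul_inv, ← ENNReal.rpow_neg]
        ring
      rw [hgeq] at hcl
      have h1 : c / g < pol s (Icc 0 1) M := by
        rw [ENNReal.div_lt_iff (Or.inl hg0) (Or.inl hgt), mul_comm]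
        exact hcl
      obtain ⟨B, hB1, hB2⟩ := exists_between h1
      have hBfin : B ≠ ⊤ := (hB2.trans_le le_top).ne
      have hcB : c < g * B := by
        rw [ENNReal.div_lt_iff (Or.inl hg0) (Or.inl hgt), mul_comm] at hB1
        exact hB1
      rw [pol, lt_iSup_iff] at hB2
      obtain ⟨z, hB2⟩ := hB2
      rw [lt_iSup_iff] at hB2
      obtain ⟨hzI, hB2⟩ := hB2
      have hz : ∀ t ∈ Icc (0 : ℝ) 1, B ≤ ∑ j, (ENNReal.ofReal |t - z j|) ^ (-s) := fun t ht =>
        hB2.le.trans (iInf₂_le t ht)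
      -- choose τ
      have hcont : Tendsto (fun τ : ℝ => (ENNReal.ofReal (1 + τ)) ^ (-s) *
          ((ENNReal.ofReal (1 + τ)) ^ (-s) * (g * B))) (𝓝[>] 0) (𝓝 (1 * (1 * (g * B)))) := by
        have h2 : Tendsto (fun τ : ℝ => (ENNReal.ofReal (1 + τ)) ^ (-s)) (𝓝[>] 0) (𝓝 1) := by
          have h3 : Continuous fun τ : ℝ => (ENNReal.ofReal (1 + τ)) ^ (-s) := by
            refine ENNReal.continuous_rpow_const.comp (ENNReal.continuous_ofReal.comp (by fun_prop))
          have h4 := h3.tendsto 0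
          simp only [add_zero, ENNReal.ofReal_one, ENNReal.one_rpow] at h4
          exact h4.mono_left nhdsWithin_le_nhds
        have hgB : g * B ≠ ⊤ := ENNReal.mul_ne_top hgt hBfin
        refine ENNReal.Tendsto.mul h2 (Or.inl one_ne_zero) (ENNReal.Tendsto.mul_const h2 (Or.inr hgB))
          (Or.inr (by simp))
      rw [one_mul, one_mul] at hcont
      obtain ⟨τ, hτc, hτ0⟩ := ((hcont.eventually_const_lt hcB).and self_mem_nhdsWithin).exists
      have hτ0' : 0 < τ := hτ0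
      filter_upwards [lower hs0 hK hc hne hv hM z hzI hBfin hz hτ0', eventually_ge_atTop 1] with N hN hN1
      refine hτc.trans_le ?_
      have hN0 : (0 : ℝ) < N := by exact_mod_cast hN1
      rw [ENNReal.le_div_iff_mul_le (Or.inl (hNpow N hN1).1) (Or.inl (hNpow N hN1).2)]
      refine le_trans (le_of_eq ?_) hN
      have hθ0 : ENNReal.ofReal (1 + τ) ≠ 0 := by
        simp only [ne_eq, ENNReal.ofReal_eq_zero, not_le]
        linarith
      have h5 : ENNReal.ofReal ((1 + τ) * (M * lam) / N) =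
          ENNReal.ofReal (1 + τ) * (ENNReal.ofReal (M * lam) * ENNReal.ofReal ((N : ℝ)⁻¹)) := by
        rw [← ENNReal.ofReal_mul (by positivity), ← ENNReal.ofReal_mul (by positivity)]
        congr 1
        field_simp
      have h6 : (ENNReal.ofReal ((N : ℝ)⁻¹)) ^ (-s) = (N : ℝ≥0∞) ^ s := by
        rw [ENNReal.ofReal_inv_of_pos hN0, ENNReal.ofReal_natCast, ENNReal.rpow_neg,
          ENNReal.inv_rpow, inv_inv]
      rw [h5, mul_rpow_neg hs0.le hθ0 ENNReal.ofReal_ne_top,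
        mul_rpow_neg hs0.le hgne ENNReal.ofReal_ne_top, h6, ← hg]
      ring
    · intro c hcl
      filter_upwards [eventually_ge_atTop 1] with N hN1
      refine lt_of_le_of_lt ?_ hcl
      refine le_trans ?_ (le_iSup₂ (f := fun (M : ℕ) (_ : 1 ≤ M) =>
        (volume K) ^ (-s) * (pol s (Icc 0 1) M / (M : ℝ≥0∞) ^ s)) N hN1)
      rw [← mul_div_assoc]
      exact ENNReal.div_le_div_right (pol_le hs0 hK hc hv N) _

end Pool.Agent.Y805.Pol
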