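import Pool.Agent.Results.MP_6bdaeb_co.Superlinear

/-!
A solvable group `Heis ⋊ ⟨2⟩` all of whose finite local models have exponential diameter.
-/

set_option autoImplicit false

namespace Pool.Agent.Y805.Expo

open Pool.Agent.Results.MP_6bdaeb_co.Superlinear

/-- Heisenberg group extended by scalings of `y` and `z` -/
@[ext]
structure Gp (R : Type) [CommRing R] where
  x : R
  y : R
  z : R
  v : Rˣ

namespace Gp

variable {R : Type} [CommRing R]

instance : Mul (Gp R) := ⟨fun a b =>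
  ⟨a.x + b.x, a.y + a.v * b.y, a.z + a.v * b.z + a.x * (a.v * b.y), a.v * b.v⟩⟩
instance : One (Gp R) := ⟨⟨0, 0, 0, 1⟩⟩
instance : Inv (Gp R) := ⟨fun a =>
  ⟨-a.x, -((a.v⁻¹ : Rˣ) * a.y), (a.v⁻¹ : Rˣ) * (-a.z + a.x * a.y), a.v⁻¹⟩⟩

lemma mul_x (a b : Gp R) : (a * b).x = a.x + b.x := rfl
lemma mul_y (a b : Gp R) : (a * b).y = a.y + a.v * b.y := rfl
lemma mul_z (a b : Gp R) : (a * b).z = a.z + a.v * b.z + a.x * (a.v * b.y) := rfl
lemma mul_v (a b : Gp R) : (a * b).v = a.v * b.v := rfl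
lemma one_x : (1 : Gp R).x = 0 := rfl
lemma one_y : (1 : Gp R).y = 0 := rfl
lemma one_z : (1 : Gp R).z = 0 := rfl
lemma one_v : (1 : Gp R).v = 1 := rfl
lemma inv_x (a : Gp R) : (a⁻¹).x = -a.x := rfl
lemma inv_y (a : Gp R) : (a⁻¹).y = -((a.v⁻¹ : Rˣ) * a.y) := rfl
lemma inv_z (a : Gp R) : (a⁻¹).z = (a.v⁻¹ : Rˣ) * (-a.z + a.x * a.y) := rfl
lemma inv_v (a : Gp R) : (a⁻¹).v = a.v⁻¹ := rfl

instance : Group (Gp R) := Group.ofLeftAxioms
  (by
    intro a b c
    refine Gp.ext ?_ ?_ ?_ ?_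
    · rw [mul_x, mul_x, mul_x, mul_x]; ring
    · rw [mul_y, mul_y, mul_y, mul_y, mul_v]; push_cast; ring
    · rw [mul_z, mul_z, mul_z, mul_z, mul_x, mul_y, mul_v]; push_cast; ring
    · rw [mul_v, mul_v, mul_v, mul_v, mul_assoc])
  (by
    intro a
    refine Gp.ext ?_ ?_ ?_ ?_
    · rw [mul_x, one_x, zero_add]
    · rw [mul_y, one_y, one_v]; simp
    · rw [mul_z, one_z, one_v, one_x]; simp
    · rw [mul_v, one_v, one_mul])
  (by
    intro a
    refine Gp.ext ?_ ?_ ?_ ?_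
    · rw [mul_x, inv_x, one_x, neg_add_cancel]
    · rw [mul_y, inv_y, inv_v, one_y, neg_add_cancel]
    · rw [mul_z, inv_z, inv_v, inv_x, one_z]; ring
    · rw [mul_v, inv_v, one_v, inv_mul_cancel])

end Gp

/-! words -/

def xi : Fin 16 → ℤ := ![1, 0, 0, 0, -1, 0, 0, 0, 1, -1, -1, 1, 1, -1, -1, 1]
def yi : Fin 16 → ℤ := ![0, 1, 0, 0, 0, -1, 0, 0, -1, 1, 0, 0, 0, 0, 0, 0]
def zi : Fin 16 → ℤ := ![0, 0, 1, 0, 0, 0, -1, 0, -1, 0, 0, 0, -2, 1, 1, -1]
def ki : Fin 16 → ℤ := ![0, 0, 0, 1, 0, 0, 0, -1, 0, 0, -1, 1, 1, -1, 0, 0]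
/-- twice the scaling factor -/
def wi : Fin 16 → ℤ := ![2, 2, 2, 4, 2, 2, 2, 1, 2, 2, 1, 4, 4, 1, 2, 2]
def iv : Fin 16 → Fin 16 := ![4, 5, 6, 7, 0, 1, 2, 3, 9, 8, 11, 10, 13, 12, 15, 14]

def wX (u : List (Fin 16)) : ℤ := (u.map xi).sum
def wK (u : List (Fin 16)) : ℤ := (u.map ki).sum
def wV : List (Fin 16) → ℤ
  | [] => 1
  | i :: u => wi i * wV u
def wY : List (Fin 16) → ℤ
  | [] => 0
  | i :: u => 2 ^ (u.length + 1) * yi i + wi i * wY u
def wZ : List (Fin 16) → ℤ
  | [] => 0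
  | i :: u => 2 ^ (u.length + 1) * zi i + wi i * wZ u + xi i * (wi i * wY u)

/-- the integer obstructions to equality of two words -/
def dif (u v : List (Fin 16)) : Fin 4 → ℤ :=
  ![wX u - wX v, 2 ^ v.length * wY u - 2 ^ u.length * wY v,
    2 ^ v.length * wZ u - 2 ^ u.length * wZ v, 2 ^ v.length * wV u - 2 ^ u.length * wV v]

/-- two words are equal in the infinite group -/
def E (u v : List (Fin 16)) : Prop := ∀ k, dif u v k = 0

instance (u v : List (Fin 16)) : Decidable (E u v) := by unfold E; infer_instance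

section ring

variable {R : Type} [CommRing R] (t : Rˣ)

/-- generators -/
def gen (i : Fin 16) : Gp R := ⟨(xi i : R), (yi i : R), (zi i : R), t ^ (ki i)⟩

/-- evaluation -/
def evR (u : List (Fin 16)) : Gp R := (u.map (gen t)).prod

lemma evR_cons (i : Fin 16) (u : List (Fin 16)) : evR t (i :: u) = gen t i * evR t u := by
  unfold evR; rw [List.map_cons, List.prod_cons]

variable {t} (ht : (t : R) = 2)
include ht

lemma wi_spec (i : Fin 16) : 2 * ((t ^ (ki i) : Rˣ) : R) = (wi i : R) := by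
  have h : ∀ i, (ki i = 0 ∧ wi i = 2) ∨ (ki i = 1 ∧ wi i = 4) ∨ (ki i = -1 ∧ wi i = 1) := by
    decide
  rcases h i with ⟨h1, h2⟩ | ⟨h1, h2⟩ | ⟨h1, h2⟩
  · rw [h1, h2]; push_cast; simp
  · rw [h1, h2, zpow_one, ht]; push_cast; norm_num
  · rw [h1, h2, zpow_neg, zpow_one, ← ht]; push_cast; exact Units.mul_inv t

lemma ev_spec (u : List (Fin 16)) : (evR t u).x = (wX u : R) ∧
    2 ^ u.length * (evR t u).y = (wY u : R) ∧ 2 ^ u.length * (evR t u).z = (wZ u : R) ∧
    2 ^ u.length * ((evR t u).v : R) = (wV u : R) := by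
  induction u with
  | nil =>
    refine ⟨?_, ?_, ?_, ?_⟩
    · show (0 : R) = _; simp [wX]
    · show 2 ^ 0 * (0 : R) = _; simp [wY]
    · show 2 ^ 0 * (0 : R) = _; simp [wZ]
    · show 2 ^ 0 * ((1 : Rˣ) : R) = _; simp [wV]
  | cons i u ih =>
    obtain ⟨h1, h2, h3, h4⟩ := ih
    have hw := wi_spec ht i
    rw [evR_cons, List.length_cons]
    refine ⟨?_, ?_, ?_, ?_⟩
    · rw [Gp.mul_x, h1]
      unfold wX
      rw [List.map_cons, List.sum_cons]
      push_cast
      rfl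
    · rw [Gp.mul_y]
      show 2 ^ (u.length + 1) * ((yi i : R) + ((t ^ (ki i) : Rˣ) : R) * _) =
        ((2 ^ (u.length + 1) * yi i + wi i * wY u : ℤ) : R)
      push_cast
      rw [← hw, ← h2]
      ring
    · rw [Gp.mul_z]
      show 2 ^ (u.length + 1) * ((zi i : R) + ((t ^ (ki i) : Rˣ) : R) * _ +
        (xi i : R) * (((t ^ (ki i) : Rˣ) : R) * _)) =
        ((2 ^ (u.length + 1) * zi i + wi i * wZ u + xi i * (wi i * wY u) : ℤ) : R)
      push_cast
      rw [← hw, ← h2, ← h3]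
      ring
    · rw [Gp.mul_v]
      show 2 ^ (u.length + 1) * (((t ^ (ki i) * (evR t u).v : Rˣ)) : R) =
        ((wi i * wV u : ℤ) : R)
      push_cast
      rw [← hw, ← h4]
      ring

lemma cancel2 {k : ℕ} {a b : R} (h : 2 ^ k * a = 2 ^ k * b) : a = b := by
  have h2 : ((t ^ k : Rˣ) : R) * a = ((t ^ k : Rˣ) : R) * b := by
    push_cast
    rw [ht]
    exact h
  exact (Units.mul_right_inj _).1 h2

lemma eq_iff (u v : List (Fin 16)) : evR t u = evR t v ↔ ∀ k, ((dif u v k : ℤ) : R) = 0 := by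
  obtain ⟨u1, u2, u3, u4⟩ := ev_spec ht u
  obtain ⟨v1, v2, v3, v4⟩ := ev_spec ht v
  constructor
  · intro h k
    have e1 : ((wX u : ℤ) : R) = wX v := by rw [← u1, ← v1, h]
    fin_cases k
    · show ((wX u - wX v : ℤ) : R) = 0
      push_cast; rw [e1, sub_self]
    · show ((2 ^ v.length * wY u - 2 ^ u.length * wY v : ℤ) : R) = 0
      push_cast; rw [← u2, ← v2, h]; ring
    · show ((2 ^ v.length * wZ u - 2 ^ u.length * wZ v : ℤ) : R) = 0
      push_cast; rw [← u3, ← v3, h]; ring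
    · show ((2 ^ v.length * wV u - 2 ^ u.length * wV v : ℤ) : R) = 0
      push_cast; rw [← u4, ← v4, h]; ring
  · intro h
    have k0 : ((wX u - wX v : ℤ) : R) = 0 := h 0
    have k1 : ((2 ^ v.length * wY u - 2 ^ u.length * wY v : ℤ) : R) = 0 := h 1
    have k2 : ((2 ^ v.length * wZ u - 2 ^ u.length * wZ v : ℤ) : R) = 0 := h 2
    have k3 : ((2 ^ v.length * wV u - 2 ^ u.length * wV v : ℤ) : R) = 0 := h 3
    push_cast at k0 k1 k2 k3
    refine Gp.ext ?_ ?_ ?_ (Units.ext ?_)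
    · rw [u1, v1]; exact sub_eq_zero.1 k0
    · apply cancel2 ht (k := v.length + u.length)
      have := sub_eq_zero.1 k1
      rw [← u2, ← v2] at this
      rw [pow_add]
      linear_combination this
    · apply cancel2 ht (k := v.length + u.length)
      have := sub_eq_zero.1 k2
      rw [← u3, ← v3] at this
      rw [pow_add]
      linear_combination this
    · apply cancel2 ht (k := v.length + u.length)
      have := sub_eq_zero.1 k3
      rw [← u4, ← v4] at this
      rw [pow_add]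
      linear_combination this

lemma eq_of_E {u v : List (Fin 16)} (h : E u v) : evR t u = evR t v := by
  rw [eq_iff ht]
  intro k
  rw [h k, Int.cast_zero]

lemma gen_iv (i : Fin 16) : gen t (iv i) = (gen t i)⁻¹ := by
  have h : ∀ i, E [iv i, i] [] := by decide
  have := eq_of_E ht (h i)
  rw [evR_cons, evR_cons] at this
  have h2 : evR t ([] : List (Fin 16)) = 1 := rfl
  rw [h2, mul_one] at this
  exact eq_inv_of_mul_eq_one_left this

end ring

/-! the group of words -/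

section wsub

variable {G : Type} [Group G] {n : ℕ}

/-- the subgroup of all values of words -/
def wsub (g : Fin n → G) (iv : Fin n → Fin n) (h : ∀ i, g (iv i) = (g i)⁻¹) : Subgroup G where
  carrier := {a | ∃ u : List (Fin n), (u.map g).prod = a}
  mul_mem' := by
    rintro _ _ ⟨u, rfl⟩ ⟨v, rfl⟩
    exact ⟨u ++ v, by rw [List.map_append, List.prod_append]⟩
  one_mem' := ⟨[], rfl⟩
  inv_mem' := by
    rintro _ ⟨u, rfl⟩
    refine ⟨(u.map iv).reverse, ?_⟩
    rw [List.prod_inv_reverse, List.map_reverse, List.map_map, List.map_map]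
    congr 2
    apply List.map_congr_left
    intro i _
    exact h i

/-- the generating system -/
def mkS (g : Fin n → G) (iv : Fin n → Fin n) (h : ∀ i, g (iv i) = (g i)⁻¹)
    (h1 : ∀ i, g i ≠ 1) (hi : Function.Injective g) : CS (wsub g iv h) n where
  gen i := ⟨g i, [i], by simp⟩
  iv := iv
  hiv i := Subtype.ext (h i)
  one i hi := h1 i (congrArg Subtype.val hi)
  inj i j hij := hi (congrArg Subtype.val hij)
  top := by
    rintro ⟨a, u, rfl⟩
    refine ⟨u, Subtype.ext ?_⟩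
    rw [← Subgroup.coe_subtype, map_list_prod, List.map_map]
    rfl

lemma mkS_ev (g : Fin n → G) (iv : Fin n → Fin n) (h : ∀ i, g (iv i) = (g i)⁻¹)
    (h1 : ∀ i, g i ≠ 1) (hi : Function.Injective g) (u : List (Fin n)) :
    (((mkS g iv h h1 hi).ev u : wsub g iv h) : G) = (u.map g).prod := by
  unfold CS.ev
  rw [← Subgroup.coe_subtype, map_list_prod, List.map_map]
  rfl

end wsub

/-- same words, same balls -/
lemma sameBall_of_words {A B : Type} [Group A] [Group B] {n : ℕ} (S : CS A n) (S' : CS B n)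
    (r : ℕ) (h : ∀ u v : List (Fin n), u.length ≤ r + 1 → v.length ≤ r + 1 →
      (S.ev u = S.ev v ↔ S'.ev u = S'.ev v)) (v : A) (w : B) :
    SameBall S.Cay v S'.Cay w r := by
  choose wd hwd1 hwd2 using S.dist_word
  have key : BM S.Cay 1 S'.Cay 1 r (fun g => S'.ev (wd g)) := by
    refine ⟨?_, ?_, ?_, ?_, ?_⟩
    · show S'.ev (wd 1) = 1
      rw [← CS.ev_nil (S := S')]
      rw [← h _ _ _ (by simp), hwd2, CS.ev_nil]
      rw [hwd1, SimpleGraph.dist_self]
      omega
    · intro x y hx hy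
      rw [CS.adj_iff, CS.adj_iff]
      have e : ∀ i, (y = S.gen i * x ↔ S'.ev (wd y) = S'.gen i * S'.ev (wd x)) := by
        intro i
        rw [← CS.ev_cons, ← h _ _ (by rw [hwd1]; omega)
          (by rw [List.length_cons, hwd1]; omega), hwd2, CS.ev_cons, hwd2]
      simp only [e]
    · intro x y hx hy he
      have he' : S'.ev (wd x) = S'.ev (wd y) := he
      rw [← h _ _ (by rw [hwd1]; omega) (by rw [hwd1]; omega), hwd2, hwd2] at he'
      exact he'
    · intro x hx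
      have := S'.dist_ev (wd x)
      rw [hwd1] at this
      exact this.trans hx
    · intro y hy
      obtain ⟨u, h1, h2⟩ := S'.dist_word y
      have h3 := S.dist_ev u
      refine ⟨S.ev u, by omega, ?_⟩
      show S'.ev (wd (S.ev u)) = y
      rw [← h2, ← h _ _ (by rw [hwd1]; omega) (by omega), hwd2]
  obtain ⟨θ, hθ⟩ := S.trans 1 v
  obtain ⟨ψ, hψ⟩ := S'.trans 1 w
  have h := key.transport θ ψ
  rw [hθ, hψ] at h
  exact h.sameBall

end Pool.Agent.Y805.Expo
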