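import Pool.Agent.Y805.Expo

/-!
The infinite group, its finite local models, and rigidity of the link.
-/

set_option autoImplicit false

namespace Pool.Agent.Y805.Expo

open Pool.Agent.Results.MP_6bdaeb_co.Superlinear

/-! bounds -/

lemma wX_abs (u : List (Fin 16)) : |wX u| ≤ u.length := by
  unfold wX
  induction u with
  | nil => decide
  | cons i u ih =>
    rw [List.map_cons, List.sum_cons, List.length_cons]
    push_cast
    have := abs_add_le (xi i) (u.map xi).sum
    have h2 : ∀ i, |xi i| ≤ 1 := by decide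
    have := h2 i
    linarith

lemma wK_abs (u : List (Fin 16)) : |wK u| ≤ u.length := by
  unfold wK
  induction u with
  | nil => decide
  | cons i u ih =>
    rw [List.map_cons, List.sum_cons, List.length_cons]
    push_cast
    have := abs_add_le (ki i) (u.map ki).sum
    have h2 : ∀ i, |ki i| ≤ 1 := by decide
    have := h2 i
    linarith

lemma wi_abs : ∀ i, |wi i| ≤ 4 := by decide

lemma wV_abs (u : List (Fin 16)) : |wV u| ≤ 4 ^ u.length := by
  induction u with
  | nil => decide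
  | cons i u ih =>
    rw [List.length_cons, pow_succ]
    show |wi i * wV u| ≤ _
    rw [abs_mul, mul_comm]
    exact mul_le_mul ih (wi_abs i) (abs_nonneg _) (by positivity)

lemma wY_abs (u : List (Fin 16)) : |wY u| ≤ 8 ^ u.length := by
  induction u with
  | nil => decide
  | cons i u ih =>
    rw [List.length_cons, pow_succ]
    show |2 ^ (u.length + 1) * yi i + wi i * wY u| ≤ _
    have h1 : ∀ i, |yi i| ≤ 1 := by decide
    have h2 : |(2 : ℤ) ^ (u.length + 1) * yi i| ≤ 2 ^ (u.length + 1) * 1 := by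
      rw [abs_mul, abs_of_pos (by positivity : (0 : ℤ) < 2 ^ (u.length + 1))]
      exact mul_le_mul_of_nonneg_left (h1 i) (by positivity)
    have h3 : |wi i * wY u| ≤ 4 * 8 ^ u.length := by
      rw [abs_mul]
      exact mul_le_mul (wi_abs i) ih (abs_nonneg _) (by norm_num)
    have h4 := abs_add_le ((2 : ℤ) ^ (u.length + 1) * yi i) (wi i * wY u)
    have h5 : (2 : ℤ) ^ (u.length + 1) ≤ 2 * 8 ^ u.length := by
      rw [pow_succ, mul_comm]
      exact mul_le_mul_of_nonneg_left (pow_le_pow_left₀ (by norm_num) (by norm_num) _)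
        (by norm_num)
    have h6 : (0 : ℤ) ≤ 8 ^ u.length := by positivity
    linarith

lemma wZ_abs (u : List (Fin 16)) : |wZ u| ≤ 16 ^ u.length := by
  induction u with
  | nil => decide
  | cons i u ih =>
    rw [List.length_cons, pow_succ]
    show |2 ^ (u.length + 1) * zi i + wi i * wZ u + xi i * (wi i * wY u)| ≤ _
    have h1 : ∀ i, |zi i| ≤ 2 := by decide
    have h2 : |(2 : ℤ) ^ (u.length + 1) * zi i| ≤ 2 ^ (u.length + 1) * 2 := by
      rw [abs_mul, abs_of_pos (by positivity : (0 : ℤ) < 2 ^ (u.length + 1))]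
      exact mul_le_mul_of_nonneg_left (h1 i) (by positivity)
    have h3 : |wi i * wZ u| ≤ 4 * 16 ^ u.length := by
      rw [abs_mul]
      exact mul_le_mul (wi_abs i) ih (abs_nonneg _) (by norm_num)
    have h7 : |xi i * (wi i * wY u)| ≤ 1 * (4 * 8 ^ u.length) := by
      rw [abs_mul, abs_mul]
      have h8 : ∀ i, |xi i| ≤ 1 := by decide
      exact mul_le_mul (h8 i) (mul_le_mul (wi_abs i) (wY_abs u) (abs_nonneg _) (by norm_num))
        (by positivity) (by norm_num)
    have h4 := abs_add_le ((2 : ℤ) ^ (u.length + 1) * zi i + wi i * wZ u) (xi i * (wi i * wY u))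
    have h4' := abs_add_le ((2 : ℤ) ^ (u.length + 1) * zi i) (wi i * wZ u)
    have h5 : (2 : ℤ) ^ (u.length + 1) ≤ 2 * 16 ^ u.length := by
      rw [pow_succ, mul_comm]
      exact mul_le_mul_of_nonneg_left (pow_le_pow_left₀ (by norm_num) (by norm_num) _)
        (by norm_num)
    have h6 : (0 : ℤ) ≤ 16 ^ u.length := by positivity
    have h9 : (8 : ℤ) ^ u.length ≤ 16 ^ u.length :=
      pow_le_pow_left₀ (by norm_num) (by norm_num) _
    linarith

lemma term_abs {a b L : ℕ} (ha : a ≤ L) (hb : b ≤ L) {x : ℤ} (hx : |x| ≤ 16 ^ a) :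
    |2 ^ b * x| ≤ 32 ^ L := by
  rw [abs_mul, abs_of_pos (by positivity : (0 : ℤ) < 2 ^ b)]
  have h1 : (16 : ℤ) ^ a ≤ 16 ^ L := pow_le_pow_right₀ (by norm_num) ha
  have h2 : (2 : ℤ) ^ b ≤ 2 ^ L := pow_le_pow_right₀ (by norm_num) hb
  have h3 : (32 : ℤ) ^ L = 2 ^ L * 16 ^ L := by rw [← mul_pow]; norm_num
  rw [h3]
  exact mul_le_mul h2 (hx.trans h1) (abs_nonneg _) (by positivity)

lemma dif_abs {L : ℕ} {u v : List (Fin 16)} (hu : u.length ≤ L) (hv : v.length ≤ L) (k : Fin 4) :
    |dif u v k| ≤ 2 * 32 ^ L := by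
  have sb : ∀ a b : ℤ, |a| ≤ 32 ^ L → |b| ≤ 32 ^ L → |a - b| ≤ 2 * 32 ^ L := by
    intro a b h1 h2
    have := abs_sub a b
    linarith
  have h8 : ∀ w : List (Fin 16), |wY w| ≤ 16 ^ w.length := fun w =>
    (wY_abs w).trans (pow_le_pow_left₀ (by norm_num) (by norm_num) _)
  have h4 : ∀ w : List (Fin 16), |wV w| ≤ 16 ^ w.length := fun w =>
    (wV_abs w).trans (pow_le_pow_left₀ (by norm_num) (by norm_num) _)
  have hx : ∀ w : List (Fin 16), w.length ≤ L → |wX w| ≤ 32 ^ L := by
    intro w hw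
    have h1 := wX_abs w
    have h2 : L < 32 ^ L := Nat.lt_pow_self (by norm_num)
    have h3 : ((L : ℕ) : ℤ) < 32 ^ L := by exact_mod_cast h2
    have h5 : ((w.length : ℕ) : ℤ) ≤ L := by exact_mod_cast hw
    linarith
  fin_cases k
  · exact sb _ _ (hx u hu) (hx v hv)
  · exact sb _ _ (term_abs hu hv (h8 u)) (term_abs hv hu (h8 v))
  · exact sb _ _ (term_abs hu hv (wZ_abs u)) (term_abs hv hu (wZ_abs v))
  · exact sb _ _ (term_abs hu hv (h4 u)) (term_abs hv hu (h4 v))

/-! the infinite group -/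

/-- the unit `2` of `ℚ` -/
def tQ : ℚˣ := Units.mk0 2 (by norm_num)

lemma tQ_val : ((tQ : ℚˣ) : ℚ) = 2 := rfl

lemma eqQ (u v : List (Fin 16)) : evR tQ u = evR tQ v ↔ E u v := by
  rw [eq_iff tQ_val]
  unfold E
  simp only [Int.cast_eq_zero]

lemma genQ_one (i : Fin 16) : gen tQ i ≠ 1 := by
  intro h
  have h1 : evR tQ [i] = evR tQ [] := by
    rw [evR_cons, h, one_mul]
  rw [eqQ] at h1
  have h2 : ∀ i, ¬ E [i] [] := by decide
  exact h2 i h1

lemma genQ_inj : Function.Injective (gen tQ) := by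
  intro i j h
  have h1 : evR tQ [i] = evR tQ [j] := by
    rw [evR_cons, evR_cons, h]
  rw [eqQ] at h1
  have h2 : ∀ i j, E [i] [j] → i = j := by decide +kernel
  exact h2 i j h1

/-- the infinite group `A` -/
def A : Subgroup (Gp ℚ) := wsub (gen tQ) iv (gen_iv tQ_val)

/-- its generating system -/
def SQ : CS A 16 := mkS (gen tQ) iv (gen_iv tQ_val) genQ_one genQ_inj

lemma SQ_ev (u v : List (Fin 16)) : SQ.ev u = SQ.ev v ↔ E u v := by
  rw [← eqQ]
  have h : ∀ w, ((SQ.ev w : A) : Gp ℚ) = evR tQ w := fun w => mkS_ev _ _ _ _ _ w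
  rw [← h, ← h]
  exact Subtype.coe_injective.eq_iff.symm

/-! the finite groups -/

section finite

variable {N : ℕ} (hN : N.Coprime 2)

/-- the unit `2` -/
def tN : (ZMod N)ˣ := ZMod.unitOfCoprime 2 hN.symm

lemma tN_val : ((tN hN : (ZMod N)ˣ) : ZMod N) = 2 := by
  unfold tN
  rw [ZMod.coe_unitOfCoprime]
  norm_num

lemma eqN {L : ℕ} (hL : 2 * 32 ^ L < N) {u v : List (Fin 16)} (hu : u.length ≤ L)
    (hv : v.length ≤ L) : evR (tN hN) u = evR (tN hN) v ↔ E u v := by
  rw [eq_iff (tN_val hN)]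
  unfold E
  refine forall_congr' (fun k => ?_)
  rw [ZMod.intCast_zmod_eq_zero_iff_dvd]
  constructor
  · intro h
    refine Int.eq_zero_of_abs_lt_dvd h ?_
    have h1 := dif_abs hu hv k
    have h2 : (2 * 32 ^ L : ℤ) < N := by exact_mod_cast hL
    linarith
  · intro h
    rw [h]
    exact dvd_zero _

lemma genN_one (hL : 64 < N) (i : Fin 16) : gen (tN hN) i ≠ 1 := by
  intro h
  have h1 : evR (tN hN) [i] = evR (tN hN) [] := by
    rw [evR_cons, h, one_mul]
  rw [eqN hN (L := 1) (by omega) (by simp) (by simp)] at h1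
  have h2 : ∀ i, ¬ E [i] [] := by decide
  exact h2 i h1

lemma genN_inj (hL : 64 < N) : Function.Injective (gen (tN hN)) := by
  intro i j h
  have h1 : evR (tN hN) [i] = evR (tN hN) [j] := by
    rw [evR_cons, evR_cons, h]
  rw [eqN hN (L := 1) (by omega) (by simp) (by simp)] at h1
  have h2 : ∀ i j, E [i] [j] → i = j := by decide +kernel
  exact h2 i j h1

/-- the finite group -/
def AN : Subgroup (Gp (ZMod N)) := wsub (gen (tN hN)) iv (gen_iv (tN_val hN))

/-- its generating system -/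
def SN (hL : 64 < N) : CS (AN hN) 16 :=
  mkS (gen (tN hN)) iv (gen_iv (tN_val hN)) (genN_one hN hL) (genN_inj hN hL)

lemma SN_ev (hL : 64 < N) {L : ℕ} (hL' : 2 * 32 ^ L < N) {u v : List (Fin 16)}
    (hu : u.length ≤ L) (hv : v.length ≤ L) :
    (SN hN hL).ev u = (SN hN hL).ev v ↔ E u v := by
  rw [← eqN hN hL' hu hv]
  have h : ∀ w, (((SN hN hL).ev w : AN hN) : Gp (ZMod N)) = evR (tN hN) w :=
    fun w => mkS_ev _ _ _ _ _ w
  rw [← h, ← h]
  exact Subtype.coe_injective.eq_iff.symm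

lemma sameBallN (hL : 64 < N) {r : ℕ} (hL' : 2 * 32 ^ (r + 1) < N) (v : A) (w : AN hN) :
    SameBall SQ.Cay v (SN hN hL).Cay w r := by
  apply sameBall_of_words
  intro u v hu hv
  rw [SQ_ev, SN_ev hN hL hL' hu hv]

end finite

/-! rigidity -/

/-- neighbour lists of the link -/
def nb : Fin 16 → List (Fin 16) := ![[1, 2, 7, 11, 15], [0, 9], [0, 11, 14], [4, 11, 14],
  [3, 6, 9, 10, 14], [8, 14], [4, 12, 15], [0, 10, 13], [5, 15], [1, 4], [4, 7, 13], [0, 2, 3],
  [6, 15], [7, 10], [2, 3, 4, 5], [0, 6, 8, 12]]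

/-- the link as a table -/
def T (i j : Fin 16) : Bool := decide (j ∈ nb i)

lemma hT : ∀ i j, (T i j = true) ↔ SQ.link i j := by
  have h : ∀ i j, (T i j = true) ↔ ∃ k, E [j] [k, i] := by decide +kernel
  intro i j
  rw [h i j]
  refine exists_congr (fun k => ?_)
  rw [← SQ_ev]
  rw [CS.ev_cons, CS.ev_cons, CS.ev_cons, CS.ev_nil, mul_one, mul_one]

/-- number of walks of given length in the link -/
def wc : ℕ → Fin 16 → ℕ
  | 0, _ => 1
  | k + 1, i => ∑ j, if T i j then wc k j else 0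

/-- table of `wc 4` -/
def tbl : Fin 16 → ℕ :=
  ![170, 74, 136, 137, 171, 63, 115, 103, 58, 75, 104, 130, 73, 62, 150, 127]

lemma wc_tbl : ∀ i, wc 4 i = tbl i := by decide +kernel

lemma tbl_inj : ∀ i j, tbl i = tbl j → i = j := by decide +kernel

lemma wc_inv (f : Equiv.Perm (Fin 16)) (h : ∀ i j, T (f i) (f j) = T i j) (k : ℕ) (i : Fin 16) :
    wc k (f i) = wc k i := by
  induction k generalizing i with
  | zero => rfl
  | succ k ih =>
    show (∑ j, if T (f i) j then wc k j else 0) = ∑ j, if T i j then wc k j else 0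
    rw [← Equiv.sum_comp f]
    apply Finset.sum_congr rfl
    intro j _
    rw [h, ih]

lemma rigid : Rigid SQ := by
  intro f hf h
  have h2 : ∀ i j, T (f i) (f j) = T i j := by
    intro i j
    have := h i j
    rw [← hT, ← hT] at this
    exact Bool.eq_iff_iff.2 this
  funext i
  have h3 := wc_inv (Equiv.ofBijective f hf) h2 4 i
  rw [wc_tbl, wc_tbl] at h3
  exact tbl_inj _ _ h3

end Pool.Agent.Y805.Expo
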