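import Pool.Agent.Y805.Expo2

/-!
The exponential lower bound.
-/

set_option autoImplicit false

namespace Pool.Agent.Y805.Expo

open Pool.Agent.Results.MP_6bdaeb_co.Superlinear

section bound

variable {W : Type} {H : SimpleGraph W} {r : ℕ}

lemma rel' (a : Act SQ H r) {u v : List (Fin 16)} (hu : u.length ≤ r) (hv : v.length ≤ r)
    (h : E u v) : (u.map a.P).prod = (v.map a.P).prod :=
  a.rel u v hu hv ((SQ_ev u v).2 h)

/-- the test word for `Z ^ j`, `j < 2 ^ n` -/
def hw : ℕ → ℕ → List (Fin 16)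
  | 0, _ => []
  | n + 1, j => (if j % 2 = 1 then [2] else []) ++ (3 :: (hw n (j / 2) ++ [7]))

lemma hw_length (n j : ℕ) : (hw n j).length ≤ 3 * n := by
  induction n generalizing j with
  | zero => exact Nat.le_refl 0
  | succ n ih =>
    have h := ih (j / 2)
    have h2 : (hw (n + 1) j) = (if j % 2 = 1 then [2] else []) ++ (3 :: (hw n (j / 2) ++ [7])) :=
      rfl
    rw [h2, List.length_append, List.length_cons, List.length_append, List.length_singleton]
    split_ifs
    · rw [List.length_singleton]; omega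
    · rw [List.length_nil]; omega

lemma hw_val {G : Type} [Group G] (P : Fin 16 → G) (h1 : P 3 * P 2 = P 2 * P 2 * P 3)
    (h2 : P 3 * P 7 = 1) (n : ℕ) : ∀ j, j < 2 ^ n → ((hw n j).map P).prod = P 2 ^ j := by
  have h3 : ∀ k : ℕ, P 3 * P 2 ^ k = P 2 ^ (2 * k) * P 3 := by
    intro k
    have : SemiconjBy (P 3) (P 2) (P 2 * P 2) := h1
    have h := this.pow_right k
    rw [← pow_two, ← pow_mul] at h
    exact h
  induction n with
  | zero =>
    intro j hj
    have : j = 0 := by omega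
    rw [this, pow_zero]
    rfl
  | succ n ih =>
    intro j hj
    have h4 := ih (j / 2) (by rw [pow_succ] at hj; omega)
    have h5 : ((hw (n + 1) j).map P).prod = (((if j % 2 = 1 then [2] else []) :
        List (Fin 16)).map P).prod * (P 3 * (((hw n (j / 2)).map P).prod * P 7)) := by
      have h2 : (hw (n + 1) j) = (if j % 2 = 1 then [2] else []) ++
        (3 :: (hw n (j / 2) ++ [7])) := rfl
      rw [h2, List.map_append, List.prod_append, List.map_cons, List.prod_cons, List.map_append,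
        List.prod_append, List.map_singleton, List.prod_singleton]
    rw [h5, h4, ← mul_assoc (P 3), h3, mul_assoc _ (P 3), h2, mul_one]
    split_ifs with hj2
    · rw [List.map_singleton, List.prod_singleton, ← pow_succ']
      congr 1
      omega
    · rw [List.map_nil, List.prod_nil, one_mul]
      congr 1
      omega

lemma evQ_z (j : ℕ) : ((gen tQ 2) ^ j).z = j := by
  have h : ∀ j : ℕ, (gen tQ 2) ^ j = ⟨0, 0, (j : ℚ), 1⟩ := by
    intro j
    induction j with
    | zero =>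
      rw [pow_zero]
      refine Gp.ext rfl rfl ?_ rfl
      show (0 : ℚ) = ((0 : ℕ) : ℚ)
      norm_num
    | succ j ih =>
      rw [pow_succ, ih]
      refine Gp.ext ?_ ?_ ?_ ?_
      · show (0 : ℚ) + ((0 : ℤ) : ℚ) = 0; norm_num
      · show (0 : ℚ) + ((1 : ℚˣ) : ℚ) * ((0 : ℤ) : ℚ) = 0; norm_num
      · show (j : ℚ) + ((1 : ℚˣ) : ℚ) * ((1 : ℤ) : ℚ) +
          0 * (((1 : ℚˣ) : ℚ) * ((0 : ℤ) : ℚ)) = ((j + 1 : ℕ) : ℚ)
        push_cast; ring
      · show (1 : ℚˣ) * tQ ^ (0 : ℤ) = 1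
        simp
  rw [h]

/-- the order of the central element is exponential in `r` -/
lemma big_order [Finite W] [Nonempty W] (a : Act SQ H r) {n : ℕ} (hn : 3 * n ≤ r) (hr : 4 ≤ r) :
    2 ^ n ≤ orderOf (a.P 2) := by
  by_contra hcon
  rw [not_le] at hcon
  have hmpos : 0 < orderOf (a.P 2) := orderOf_pos _
  have e1 : a.P 3 * a.P 2 = a.P 2 * a.P 2 * a.P 3 := by
    have := rel' a (u := [3, 2]) (v := [2, 2, 3]) (by simp; omega) (by simp; omega) (by decide)
    simpa [mul_assoc] using this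
  have e2 : a.P 3 * a.P 7 = 1 := by
    have := rel' a (u := [3, 7]) (v := []) (by simp; omega) (by simp) (by decide)
    simpa using this
  have h1 := hw_val a.P e1 e2 n _ hcon
  rw [pow_orderOf_eq_one] at h1
  obtain ⟨w⟩ := (inferInstance : Nonempty W)
  have h2 := a.free (hw n (orderOf (a.P 2))) w ((hw_length _ _).trans hn) (by rw [h1]; rfl)
  have h3 : evR tQ (hw n (orderOf (a.P 2))) = 1 := by
    show ((hw n (orderOf (a.P 2))).map (gen tQ)).prod = 1
    rw [← mkS_ev (gen tQ) iv (gen_iv tQ_val) genQ_one genQ_inj]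
    have := congrArg Subtype.val h2
    exact this
  have g1 : gen tQ 3 * gen tQ 2 = gen tQ 2 * gen tQ 2 * gen tQ 3 := by
    have := (eqQ [3, 2] [2, 2, 3]).2 (by decide)
    rw [evR_cons, evR_cons, evR_cons, evR_cons, evR_cons] at this
    have h0 : evR tQ [] = 1 := rfl
    rw [h0] at this
    simpa [mul_assoc] using this
  have g2 : gen tQ 3 * gen tQ 7 = 1 := by
    have := (eqQ [3, 7] []).2 (by decide)
    rw [evR_cons, evR_cons] at this
    have h0 : evR tQ [] = 1 := rfl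
    rw [h0] at this
    simpa [mul_assoc] using this
  have h4 := hw_val (gen tQ) g1 g2 n _ hcon
  unfold evR at h3
  rw [h4] at h3
  have h5 := congrArg Gp.z h3
  rw [evQ_z] at h5
  have h6 : ((orderOf (a.P 2) : ℕ) : ℚ) = 0 := h5
  have h7 : orderOf (a.P 2) = 0 := by exact_mod_cast h6
  omega

/-- the elements `Z ^ c Y` -/
def Wc (a : Act SQ H r) (c : ℤ) : Equiv.Perm W := a.P 2 ^ c * a.P 1

/-- correction word -/
def zs (i : Fin 16) : List (Fin 16) := if xi i = 1 then [2] else if xi i = -1 then [6] else []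

lemma zs_length : ∀ i, (zs i).length ≤ 1 := by decide

lemma commZY (a : Act SQ H r) (hr : 6 ≤ r) : Commute (a.P 2) (a.P 1) := by
  have := rel' a (u := [2, 1]) (v := [1, 2]) (by simp; omega) (by simp; omega) (by decide)
  show a.P 2 * a.P 1 = a.P 1 * a.P 2
  simpa [mul_assoc] using this

lemma zs_val (a : Act SQ H r) (hr : 6 ≤ r) (i : Fin 16) :
    ((zs i).map a.P).prod = a.P 2 ^ (xi i) := by
  have e : a.P 6 = (a.P 2)⁻¹ := by
    have := rel' a (u := [6, 2]) (v := []) (by simp; omega) (by simp) (by decide)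
    rw [eq_inv_iff_mul_eq_one]
    simpa using this
  have h : ∀ i, (zs i = [2] ∧ xi i = 1) ∨ (zs i = [6] ∧ xi i = -1) ∨ (zs i = [] ∧ xi i = 0) := by
    decide
  rcases h i with ⟨h1, h2⟩ | ⟨h1, h2⟩ | ⟨h1, h2⟩
  · rw [h1, h2, zpow_one]; simp
  · rw [h1, h2, zpow_neg, zpow_one, ← e]; simp
  · rw [h1, h2, zpow_zero]; simp

lemma Wc_mul (a : Act SQ H r) (c s : ℤ) :
    a.P 2 ^ c * (a.P 2 ^ s * a.P 1) = Wc a (c + s) := by
  unfold Wc
  rw [zpow_add, mul_assoc]

lemma Wc_sq (a : Act SQ H r) (hr : 6 ≤ r) (c : ℤ) :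
    Wc a c ^ 2 = (a.P 2 * a.P 2) ^ c * (a.P 1 * a.P 1) := by
  unfold Wc
  have h := commZY a hr
  have h1 : Commute (a.P 2 ^ c) (a.P 1) := h.zpow_left c
  rw [h1.mul_pow, pow_two, pow_two, (Commute.refl (a.P 2)).mul_zpow]

lemma gen_conj (a : Act SQ H r) (hr : 6 ≤ r) (i : Fin 16) (c : ℤ) :
    (ki i = 0 ∧ SemiconjBy (a.P i) (Wc a c) (Wc a (c + xi i))) ∨
    (ki i = 1 ∧ SemiconjBy (a.P i) (Wc a c) (Wc a (c + xi i) ^ 2)) ∨
    (ki i = -1 ∧ SemiconjBy (a.P i) (Wc a c ^ 2) (Wc a (c + xi i))) := by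
  have h : ∀ i, (ki i = 0 ∧ E [i, 2] [2, i] ∧ E [i, 1] (zs i ++ [1, i])) ∨
      (ki i = 1 ∧ E [i, 2] [2, 2, i] ∧ E [i, 1] (zs i ++ ([1] ++ (zs i ++ [1, i])))) ∨
      (ki i = -1 ∧ E [i, 2, 2] [2, i] ∧ E [i, 1, 1] (zs i ++ [1, i])) := by decide +kernel
  have hz := zs_length i
  have hv := zs_val a hr i
  rcases h i with ⟨h1, h2, h3⟩ | ⟨h1, h2, h3⟩ | ⟨h1, h2, h3⟩
  · refine Or.inl ⟨h1, ?_⟩
    have k1 := rel' a (by simp; omega) (by simp; omega) h2
    have k2 := rel' a (by simp; omega) (by simp; omega) h3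
    rw [List.map_append, List.prod_append, hv] at k2
    have s1 : SemiconjBy (a.P i) (a.P 2) (a.P 2) := by
      show a.P i * a.P 2 = a.P 2 * a.P i
      simpa [mul_assoc] using k1
    have s2 : SemiconjBy (a.P i) (a.P 1) (a.P 2 ^ (xi i) * a.P 1) := by
      show a.P i * a.P 1 = a.P 2 ^ (xi i) * a.P 1 * a.P i
      simpa [mul_assoc] using k2
    rw [← Wc_mul]
    exact (s1.zpow_right c).mul_right s2
  · refine Or.inr (Or.inl ⟨h1, ?_⟩)
    have k1 := rel' a (by simp; omega) (by simp; omega) h2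
    have k2 := rel' a (by simp; omega) (by simp; omega) h3
    rw [List.map_append, List.prod_append, hv, List.map_append, List.prod_append,
      List.map_append, List.prod_append, hv] at k2
    have s1 : SemiconjBy (a.P i) (a.P 2) (a.P 2 * a.P 2) := by
      show a.P i * a.P 2 = a.P 2 * a.P 2 * a.P i
      simpa [mul_assoc] using k1
    have s2 : SemiconjBy (a.P i) (a.P 1) ((a.P 2 ^ (xi i) * a.P 1) ^ 2) := by
      show a.P i * a.P 1 = (a.P 2 ^ (xi i) * a.P 1) ^ 2 * a.P i
      simpa [mul_assoc, pow_two] using k2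
    have e : Wc a (c + xi i) ^ 2 = (a.P 2 * a.P 2) ^ c * (a.P 2 ^ (xi i) * a.P 1) ^ 2 := by
      rw [← Wc_mul]
      have h := commZY a hr
      have hc : Commute (a.P 2 ^ c) (a.P 2 ^ (xi i) * a.P 1) :=
        ((Commute.refl (a.P 2)).zpow_zpow c (xi i)).mul_right (h.zpow_left c)
      rw [hc.mul_pow, (Commute.refl (a.P 2)).mul_zpow, pow_two (a.P 2 ^ c)]
    rw [e]
    exact (s1.zpow_right c).mul_right s2
  · refine Or.inr (Or.inr ⟨h1, ?_⟩)
    have k1 := rel' a (by simp; omega) (by simp; omega) h2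
    have k2 := rel' a (by simp; omega) (by simp; omega) h3
    rw [List.map_append, List.prod_append, hv] at k2
    have s1 : SemiconjBy (a.P i) (a.P 2 * a.P 2) (a.P 2) := by
      show a.P i * (a.P 2 * a.P 2) = a.P 2 * a.P i
      simpa [mul_assoc] using k1
    have s2 : SemiconjBy (a.P i) (a.P 1 * a.P 1) (a.P 2 ^ (xi i) * a.P 1) := by
      show a.P i * (a.P 1 * a.P 1) = a.P 2 ^ (xi i) * a.P 1 * a.P i
      simpa [mul_assoc] using k2
    rw [Wc_sq a hr, ← Wc_mul]
    exact (s1.zpow_right c).mul_right s2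

/-- exponent bookkeeping -/
def fe (u : List (Fin 16)) (e : ℕ) : ℕ := ((e : ℤ) + wK u).toNat

lemma word_conj (a : Act SQ H r) (hr : 6 ≤ r) (u : List (Fin 16)) (c : ℤ) (e : ℕ)
    (he : u.length ≤ e) : SemiconjBy ((u.map a.P).prod) (Wc a c ^ (2 ^ e))
      (Wc a (c + wX u) ^ (2 ^ fe u e)) := by
  induction u with
  | nil =>
    have h1 : fe [] e = e := by unfold fe wK; simp
    have h2 : c + wX [] = c := by unfold wX; simp
    rw [h1, h2, List.map_nil, List.prod_nil]
    exact SemiconjBy.one_left _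
  | cons i u ih =>
    rw [List.length_cons] at he
    have h := ih (by omega)
    have hK := wK_abs u
    rw [abs_le] at hK
    have hlen : ((u.length : ℕ) : ℤ) + 1 ≤ e := by exact_mod_cast he
    have hx : c + wX (i :: u) = (c + wX u) + xi i := by
      unfold wX; rw [List.map_cons, List.sum_cons]; ring
    have hk : wK (i :: u) = ki i + wK u := by
      unfold wK; rw [List.map_cons, List.sum_cons]
    rw [List.map_cons, List.prod_cons, hx]
    refine SemiconjBy.mul_left ?_ h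
    rcases gen_conj a hr i (c + wX u) with ⟨h1, h2⟩ | ⟨h1, h2⟩ | ⟨h1, h2⟩
    · have hf : fe (i :: u) e = fe u e := by unfold fe; rw [hk, h1, zero_add]
      rw [hf]
      exact h2.pow_right _
    · have hf : fe (i :: u) e = fe u e + 1 := by unfold fe; rw [hk, h1]; omega
      rw [hf, pow_succ', pow_mul]
      exact h2.pow_right _
    · have hf : fe u e = fe (i :: u) e + 1 := by unfold fe; rw [hk, h1]; omega
      rw [hf, pow_succ' 2 (fe (i :: u) e), pow_mul (Wc a (c + wX u))]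
      exact h2.pow_right _

lemma X_conj (a : Act SQ H r) (hr : 6 ≤ r) (h : ℕ) : SemiconjBy (a.P 0 ^ h) (Wc a 0) (Wc a h) := by
  induction h with
  | zero => rw [pow_zero]; exact SemiconjBy.one_left _
  | succ h ih =>
    rw [pow_succ']
    refine SemiconjBy.mul_left ?_ ih
    have h1 : ki 0 = 0 := by decide
    have h2 : xi 0 = 1 := by decide
    rcases gen_conj a hr 0 h with ⟨_, h3⟩ | ⟨h3, _⟩ | ⟨h3, _⟩
    · rw [h2] at h3
      push_cast
      exact h3
    · rw [h1] at h3; norm_num at h3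
    · rw [h1] at h3; norm_num at h3

lemma odd_order [Finite W] (a : Act SQ H r) (hr : 6 ≤ r) :
    Nat.Coprime (orderOf (a.P 2)) 2 := by
  rw [Nat.coprime_comm, Nat.Prime.coprime_iff_not_dvd Nat.prime_two]
  rintro ⟨k, hk⟩
  have hmpos : 0 < orderOf (a.P 2) := orderOf_pos _
  have e1 : SemiconjBy (a.P 3) (a.P 2) (a.P 2 ^ 2) := by
    have := rel' a (u := [3, 2]) (v := [2, 2, 3]) (by simp; omega) (by simp; omega) (by decide)
    show a.P 3 * a.P 2 = a.P 2 ^ 2 * a.P 3
    simpa [mul_assoc, pow_two] using this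
  have h1 := e1.pow_right k
  rw [← pow_mul, ← hk, pow_orderOf_eq_one] at h1
  have h2 : a.P 3 * a.P 2 ^ k = a.P 3 * 1 := by
    rw [mul_one]
    have h3 : a.P 3 * a.P 2 ^ k = 1 * a.P 3 := h1
    rw [h3, one_mul]
  have h4 := mul_left_cancel h2
  have h5 := orderOf_dvd_of_pow_eq_one h4
  have h6 := Nat.le_of_dvd (by omega) h5
  omega

/-- the diameter is at least about the square root of the order -/
lemma diam_bound [Finite W] (a : Act SQ H r) (hr : 6 ≤ r) (hH : H.Connected)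
    (hVT : ∀ u v : W, ∃ φ : H ≃g H, φ u = v) :
    orderOf (a.P 2) ≤ (2 * H.diam + 1) ^ 2 := by
  classical
  by_contra hcon
  rw [not_le] at hcon
  obtain ⟨w⟩ := hH.nonempty
  have hu : ∀ h : ℕ, ∃ u : List (Fin 16), u.length ≤ H.diam ∧
      (u.map a.P).prod = a.P 0 ^ h := by
    intro h
    obtain ⟨p, hp⟩ := hH.exists_walk_length_eq_dist w ((a.P 0 ^ h) w)
    obtain ⟨u, hu1, hu2⟩ := a.walk_word p
    have hd : H.dist w ((a.P 0 ^ h) w) ≤ H.diam := by
      have : Nonempty W := ⟨w⟩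
      exact SimpleGraph.dist_le_diam (SimpleGraph.connected_iff_ediam_ne_top.1 hH)
    have hrep : ((List.replicate h (0 : Fin 16)).map a.P).prod = a.P 0 ^ h := by
      rw [List.map_replicate, List.prod_replicate]
    refine ⟨u, by omega, ?_⟩
    ext v
    obtain ⟨ψ, hψ⟩ := hVT w v
    rw [← hψ, ← a.aut_word rigid ψ, hu2, ← hrep, a.aut_word rigid ψ]
  choose u hu1 hu2 using hu
  set d := H.diam with hd
  set m := orderOf (a.P 2) with hm
  have hmaps : ∀ h ∈ Finset.range m, (wX (u h), wK (u h)) ∈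
      (Finset.Icc (-(d : ℤ)) d) ×ˢ (Finset.Icc (-(d : ℤ)) d) := by
    intro h _
    have h1 := wX_abs (u h)
    have h2 := wK_abs (u h)
    have h3 : (((u h).length : ℕ) : ℤ) ≤ d := by exact_mod_cast hu1 h
    rw [abs_le] at h1 h2
    rw [Finset.mem_product, Finset.mem_Icc, Finset.mem_Icc]
    exact ⟨⟨by linarith [h1.1], by linarith [h1.2]⟩, ⟨by linarith [h2.1], by linarith [h2.2]⟩⟩
  have hcard : ((Finset.Icc (-(d : ℤ)) d) ×ˢ (Finset.Icc (-(d : ℤ)) d)).card <
      (Finset.range m).card := by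
    rw [Finset.card_product, Int.card_Icc, Finset.card_range]
    have : ((d : ℤ) + 1 - -(d : ℤ)).toNat = 2 * d + 1 := by omega
    rw [this, ← pow_two]
    exact hcon
  obtain ⟨h, hh, h', hh', hne, heq⟩ :=
    Finset.exists_ne_map_eq_of_card_lt_of_maps_to hcard hmaps
  rw [Prod.mk.injEq] at heq
  obtain ⟨eX, eK⟩ := heq
  have s : ∀ h : ℕ, Wc a h ^ (2 ^ d) = Wc a (0 + wX (u h)) ^ (2 ^ fe (u h) d) := by
    intro h
    have s1 := word_conj a hr (u h) 0 d (hu1 h)
    rw [hu2] at s1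
    have s2 := (X_conj a hr h).pow_right (2 ^ d)
    have s3 : Wc a h ^ (2 ^ d) * a.P 0 ^ h =
        Wc a (0 + wX (u h)) ^ (2 ^ fe (u h) d) * a.P 0 ^ h := s2.eq.symm.trans s1.eq
    exact mul_right_cancel s3
  have t1 : Wc a h ^ (2 ^ d) = Wc a h' ^ (2 ^ d) := by
    rw [s h, s h', eX]
    unfold fe
    rw [eK]
  have hex : ∀ k : ℕ, Wc a k ^ (2 ^ d) = a.P 2 ^ (k * 2 ^ d) * a.P 1 ^ (2 ^ d) := by
    intro k
    unfold Wc
    have h1 : Commute (a.P 2 ^ (k : ℤ)) (a.P 1) := (commZY a hr).zpow_left k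
    rw [h1.mul_pow, zpow_natCast, ← pow_mul]
  rw [hex, hex] at t1
  have t2 := mul_right_cancel t1
  rw [pow_eq_pow_iff_modEq] at t2
  have t3 : h ≡ h' [MOD m] := by
    have hc : Nat.Coprime m (2 ^ d) := (odd_order a hr).pow_right d
    exact Nat.ModEq.cancel_right_of_coprime hc t2
  have t4 := Nat.ModEq.eq_of_lt_of_lt t3 (Finset.mem_range.1 hh) (Finset.mem_range.1 hh')
  exact hne t4

end bound

end Pool.Agent.Y805.Expo
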