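import Pool.Agent.Y805.Expo3

/-!
Assembling the exponential gap.
-/

set_option autoImplicit false

namespace Pool.Agent.Y805.Expo

open Pool.Agent.Results.MP_6bdaeb_co.Superlinear

lemma SameBall.all {V W : Type} {G : SimpleGraph V} {H : SimpleGraph W} {r : ℕ}
    (hG : VertexTransitive G) (hH : VertexTransitive H) {v : V} {w : W}
    (h : SameBall G v H w r) (v' : V) (w' : W) : SameBall G v' H w' r := by
  obtain ⟨f, hf⟩ := h.exists_map
  obtain ⟨θ, hθ⟩ := hG v v'
  obtain ⟨ψ, hψ⟩ := hH w w'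
  have h := hf.transport θ ψ
  rw [hθ, hψ] at h
  exact h.sameBall

lemma SameBall.trans {V W U : Type} {G : SimpleGraph V} {H : SimpleGraph W} {K : SimpleGraph U}
    {r : ℕ} {v : V} {w : W} {u : U} (h : SameBall G v H w r) (h' : SameBall H w K u r) :
    SameBall G v K u r := by
  obtain ⟨φ, hφ⟩ := h
  obtain ⟨ψ, hψ⟩ := h'
  exact ⟨φ.trans ψ, by rw [RelIso.trans_apply, hφ, hψ]⟩

lemma ncard_nbr {A : Type} [Group A] {n : ℕ} (S : CS A n) (g : A) :
    (S.Cay.neighborSet g).ncard = n := by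
  have h : S.Cay.neighborSet g = (fun i => S.gen i * g) '' Set.univ := by
    ext h
    rw [SimpleGraph.mem_neighborSet, CS.adj_iff]
    constructor
    · rintro ⟨i, hi⟩
      exact ⟨i, Set.mem_univ _, hi.symm⟩
    · rintro ⟨i, _, hi⟩
      exact ⟨i, hi.symm⟩
  rw [h, Set.ncard_image_of_injective _ (fun i j hij => S.inj (mul_right_cancel hij)),
    Set.ncard_univ, Nat.card_fin]

lemma infA : Infinite A := by
  apply Infinite.of_injective (fun k : ℕ => SQ.ev (List.replicate k 0))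
  intro a b h
  have h1 := (SQ_ev _ _).1 h 0
  have h2 : wX (List.replicate a 0) - wX (List.replicate b 0) = 0 := h1
  have h3 : ∀ k : ℕ, wX (List.replicate k 0) = k := by
    intro k
    unfold wX
    rw [List.map_replicate, List.sum_replicate]
    have : xi 0 = 1 := by decide
    rw [this]
    simp
  rw [h3, h3] at h2
  omega

lemma lower {r : ℕ} (hr : 1 ≤ r) {W : Type} [Finite W] {H : SimpleGraph W} (hH : H.Connected)
    (hVT : VertexTransitive H) (hB : ∀ (v : A) (w : W), SameBall SQ.Cay v H w r) :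
    2 ^ (r / 6) ≤ 3 * H.diam := by
  have hne : Nonempty W := hH.nonempty
  have hpos : 1 ≤ H.diam := by
    obtain ⟨w⟩ := hne
    obtain ⟨f, hf⟩ := (hB 1 w).exists_map
    have h1 : SQ.Cay.Adj 1 (SQ.ev [0]) := ⟨0, by rw [CS.ev_cons, CS.ev_nil]⟩
    have h2 : SQ.Cay.dist 1 (SQ.ev [0]) ≤ r := (SQ.dist_ev [0]).trans (by simpa using hr)
    have h3 : SQ.Cay.dist 1 1 ≤ r := by rw [SimpleGraph.dist_self]; omega
    rw [hf.adj _ _ h3 h2] at h1
    rw [← SimpleGraph.dist_eq_one_iff_adj.2 h1]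
    have : Nonempty W := ⟨w⟩
    exact SimpleGraph.dist_le_diam (SimpleGraph.connected_iff_ediam_ne_top.1 hH)
  by_cases h6 : r < 6
  · have : r / 6 = 0 := by omega
    rw [this]
    omega
  · rw [not_lt] at h6
    have hB' : ∀ w, ∃ f, BM SQ.Cay 1 H w r f := fun w => (hB 1 w).exists_map
    obtain ⟨a⟩ := exists_act hH rigid (by omega) hB'
    have h1 := big_order a (n := r / 3) (by omega) (by omega)
    have h2 := diam_bound a h6 hH hVT
    have h3 : (2 ^ (r / 6)) ^ 2 ≤ (3 * H.diam) ^ 2 := by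
      calc (2 ^ (r / 6)) ^ 2 = 2 ^ (r / 6 * 2) := by rw [← pow_mul]
        _ ≤ 2 ^ (r / 3) := Nat.pow_le_pow_right (by norm_num) (by omega)
        _ ≤ (2 * H.diam + 1) ^ 2 := h1.trans h2
        _ ≤ (3 * H.diam) ^ 2 := Nat.pow_le_pow_left (by omega) 2
    exact (Nat.pow_le_pow_iff_left (by norm_num)).1 h3

lemma diam_lt {W : Type} [Finite W] {H : SimpleGraph W} (hH : H.Connected) :
    H.diam < Nat.card W := by
  have : Nonempty W := hH.nonempty
  have : Fintype W := Fintype.ofFinite W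
  obtain ⟨u, v, huv⟩ := H.exists_dist_eq_diam
  obtain ⟨p, hp, hp'⟩ := hH.exists_path_of_dist u v
  rw [← huv, ← hp', Nat.card_eq_fintype_card]
  exact hp.length_lt

lemma card_Gp (N : ℕ) [NeZero N] : Finite (Gp (ZMod N)) ∧ Nat.card (Gp (ZMod N)) ≤ N ^ 4 := by
  have hi : Function.Injective (fun g : Gp (ZMod N) => (g.x, g.y, g.z, (g.v : ZMod N))) := by
    intro a b h
    simp only [Prod.mk.injEq] at h
    exact Gp.ext h.1 h.2.1 h.2.2.1 (Units.ext h.2.2.2)
  refine ⟨Finite.of_injective _ hi, (Nat.card_le_card_of_injective _ hi).trans ?_⟩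
  rw [Nat.card_prod, Nat.card_prod, Nat.card_prod, Nat.card_zmod]
  apply le_of_eq
  ring

/-- a finite local model of explicitly bounded diameter -/
lemma model {r : ℕ} (hr : 1 ≤ r) : ∃ (W : Type) (_ : Finite W) (H : SimpleGraph W),
    H.Connected ∧ (∀ v, (H.neighborSet v).ncard = 16) ∧ VertexTransitive H ∧
    (∀ (v : A) (w : W), SameBall SQ.Cay v H w r) ∧ H.diam ≤ 2 ^ (60 * r) := by
  set N := 2 * 32 ^ (r + 1) + 1 with hNdef
  have hc : N.Coprime 2 := by
    rw [hNdef, Nat.coprime_two_right]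
    exact ⟨32 ^ (r + 1), rfl⟩
  have h32 : 32 ^ 2 ≤ 32 ^ (r + 1) := Nat.pow_le_pow_right (by norm_num) (by omega)
  have hL : 64 < N := by omega
  have : NeZero N := ⟨by omega⟩
  obtain ⟨hfin, hcard⟩ := card_Gp N
  have hfin' : Finite (AN hc) := inferInstance
  refine ⟨AN hc, hfin', (SN hc hL).Cay, (SN hc hL).conn, ncard_nbr _, (SN hc hL).trans,
    sameBallN hc hL (by omega), ?_⟩
  have h1 := diam_lt (SN hc hL).conn
  have h2 : Nat.card (AN hc) ≤ Nat.card (Gp (ZMod N)) :=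
    Nat.card_le_card_of_injective _ Subtype.coe_injective
  have h3 : N ≤ 2 ^ (15 * r) := by
    have e1 : (2 : ℕ) ^ (15 * r) = 32 ^ (3 * r) := by
      rw [show (32 : ℕ) = 2 ^ 5 by norm_num, ← pow_mul]
      congr 1
      ring
    have e2 : 32 ^ (r + 2) ≤ 32 ^ (3 * r) := Nat.pow_le_pow_right (by norm_num) (by omega)
    have e3 : 32 ^ (r + 2) = 32 * 32 ^ (r + 1) := by ring
    omega
  calc (SN hc hL).Cay.diam ≤ N ^ 4 := by omega
    _ ≤ (2 ^ (15 * r)) ^ 4 := Nat.pow_le_pow_left h3 4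
    _ = 2 ^ (60 * r) := by rw [← pow_mul]; congr 1; ring

end Pool.Agent.Y805.Expo
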