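import Pool.Agent.Results.MP_487945_co.PositiveChar

/-!
Moment-curve systems without the Lefschetz property in arbitrarily high dimension.
-/

set_option autoImplicit false

namespace Pool.Agent.Y805.Mom

open Finset Pool.Agent.Results.MP_487945_co.PositiveChar

universe u

/-- `1 + q + ⋯ + q ^ (i - 1)` -/
def rr (q : ℕ) : ℕ → ℕ
  | 0 => 0
  | i + 1 => q * rr q i + 1

lemma rr_eq (q : ℕ) (i : ℕ) : q * rr (q + 1) i + 1 = (q + 1) ^ i := by
  induction i with
  | zero => simp [rr]
  | succ i ih =>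
    rw [pow_succ, ← ih]
    show q * ((q + 1) * rr (q + 1) i + 1) + 1 = _
    ring

lemma rr_pos (q : ℕ) {i : ℕ} (hi : 1 ≤ i) : 1 ≤ rr q i := by
  obtain ⟨j, rfl⟩ : ∃ j, i = j + 1 := ⟨i - 1, by omega⟩
  exact Nat.le_add_left 1 _

/-- iterating the Frobenius relation -/
lemma frob_iter {B : Type u} [CommRing B] (q : ℕ) (w : B) (S : Set B)
    (hS : ∀ a ∈ S, ∃ b ∈ S, a ^ q = b * w) (i : ℕ) :
    ∀ a ∈ S, ∃ b ∈ S, a ^ (q ^ i) = b * w ^ (rr q i) := by
  induction i with
  | zero =>
    intro a ha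
    exact ⟨a, ha, by rw [pow_zero, pow_one]; show a = a * w ^ 0; rw [pow_zero, mul_one]⟩
  | succ i ih =>
    intro a ha
    obtain ⟨b, hb, h1⟩ := ih a ha
    obtain ⟨c, hc, h2⟩ := hS b hb
    refine ⟨c, hc, ?_⟩
    rw [pow_succ, pow_mul, h1, mul_pow, h2]
    show c * w * (w ^ rr q i) ^ q = c * w ^ (q * rr q i + 1)
    rw [← pow_mul, mul_comm (rr q i) q, pow_succ]
    ring

section seqs

variable {k : Type u} [Field k] [Infinite k]

/-- avoiding the zeros of finitely many nonzero polynomials -/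
lemma avoid {ι : Type*} (s : Finset ι) (f : ι → Polynomial k) (hf : ∀ i ∈ s, f i ≠ 0)
    (g : Polynomial k) (hg : g ≠ 0) :
    ∃ y, g.eval y ≠ 0 ∧ ∀ i ∈ s, (f i).eval y ≠ 0 := by
  classical
  obtain ⟨y, hy⟩ := Infinite.exists_notMem_finset
    (g.roots.toFinset ∪ s.biUnion (fun i => (f i).roots.toFinset))
  rw [Finset.mem_union, not_or, Multiset.mem_toFinset, Polynomial.mem_roots hg] at hy
  refine ⟨y, hy.1, ?_⟩
  intro i hi h
  apply hy.2
  rw [Finset.mem_biUnion]
  exact ⟨i, hi, by rw [Multiset.mem_toFinset, Polynomial.mem_roots (hf i hi)]; exact h⟩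

/-- a sequence for which certain polynomials in two variables do not vanish -/
lemma exists_seq' (g : Polynomial k) (hg : g ≠ 0) (F : k → Polynomial k)
    (hF : ∀ x, g.eval x ≠ 0 → F x ≠ 0) (hsymm : ∀ x y, (F x).eval y = 0 → (F y).eval x = 0) :
    ∃ f : ℕ → k, (∀ n, g.eval (f n) ≠ 0) ∧
      ∀ m n, m ≠ n → (F (f m)).eval (f n) ≠ 0 := by
  have : Std.Symm (fun x y : k => (F x).eval y ≠ 0) :=
    ⟨fun x y h h2 => h (hsymm y x h2)⟩
  obtain ⟨f, h1, h2⟩ := exists_seq_of_forall_finset_exists' (fun x : k => g.eval x ≠ 0)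
    (fun x y : k => (F x).eval y ≠ 0) (by
      intro s hs
      exact avoid s F (fun x hx => hF x (hs x hx)) g hg)
  exact ⟨f, h1, fun m n hmn => h2 hmn⟩

end seqs

section large

variable {k : Type u} [Field k]

lemma case_large' [Infinite k] (p : ℕ) [hp : Fact p.Prime] [CharP k p] (h5 : 5 ≤ p) (c i : ℕ)
    (hc : 1 ≤ c) :
    ∃ t : (ZMod p)ˣ ⊕ (Fin (c * rr p i) × (ZMod p)ˣ) → k, Function.Injective t ∧
      (∀ v, t v ≠ 0) ∧
      ∀ (B : Type u) [CommRing B] [Algebra k B] (s t' : B),
      ∏ l, (s + t (Sum.inl l) • t') = 0 → ∏ r, (s + t (Sum.inr r) • t') = 0 →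
      ∀ α β : k, (α • s + β • t') ^ (c * p ^ i) = 0 := by
  have hodd : p ≠ 2 := by omega
  let φ := ZMod.castHom (dvd_refl p) k
  have hinj : Function.Injective φ := φ.injective
  have hφ : ∀ z : (ZMod p)ˣ, φ z ≠ 0 := fun z h => z.ne_zero (hinj (h.trans (map_zero φ).symm))
  have hφp : ∀ z : (ZMod p)ˣ, φ z ^ (p - 1) = 1 := by
    intro z
    rw [← map_pow, ZMod.pow_card_sub_one_eq_one z.ne_zero, map_one]
  have hp1 : p - 1 ≠ 0 := by omega
  obtain ⟨g, hg1, hg2⟩ := exists_seq' (k := k)
    (Polynomial.X * (Polynomial.X ^ (p - 1) - Polynomial.C 1))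
    (mul_ne_zero Polynomial.X_ne_zero (Polynomial.X_pow_sub_C_ne_zero (by omega) 1))
    (fun x => Polynomial.X ^ (p - 1) - Polynomial.C (x ^ (p - 1)))
    (fun x _ => Polynomial.X_pow_sub_C_ne_zero (by omega) _)
    (fun x y h => by
      simp only [Polynomial.eval_sub, Polynomial.eval_pow, Polynomial.eval_X,
        Polynomial.eval_C] at h ⊢
      rw [sub_eq_zero] at h ⊢
      exact h.symm)
  simp only [Polynomial.eval_sub, Polynomial.eval_pow, Polynomial.eval_X, Polynomial.eval_C,
    Polynomial.eval_mul] at hg1 hg2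
  have hg0 : ∀ n, g n ≠ 0 := fun n h => hg1 n (by rw [h, zero_mul])
  have hgp : ∀ n, g n ^ (p - 1) ≠ 1 := fun n h => hg1 n (by rw [h, sub_self, mul_zero])
  have hgg : ∀ m n, m ≠ n → g n ^ (p - 1) ≠ g m ^ (p - 1) := fun m n hmn h =>
    hg2 m n hmn (by rw [h, sub_self])
  refine ⟨fun v => v.elim (fun z : (ZMod p)ˣ => φ (z : ZMod p))
    (fun z : Fin (c * rr p i) × (ZMod p)ˣ => g z.1 * φ (z.2 : ZMod p)), ?_, ?_, ?_⟩
  · rintro (z | ⟨j, z⟩) (w | ⟨j', w⟩) h
    · simp only [Sum.elim_inl] at h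
      rw [Units.ext (hinj h)]
    · exfalso
      simp only [Sum.elim_inl, Sum.elim_inr] at h
      apply hgp j'
      have := congrArg (· ^ (p - 1)) h
      simp only [mul_pow, hφp, mul_one] at this
      exact this.symm
    · exfalso
      simp only [Sum.elim_inl, Sum.elim_inr] at h
      apply hgp j
      have := congrArg (· ^ (p - 1)) h
      simp only [mul_pow, hφp, mul_one] at this
      exact this
    · simp only [Sum.elim_inr] at h
      have hjj : j = j' := by
        by_contra hne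
        apply hgg j' j (fun h => hne (Fin.ext h.symm))
        have := congrArg (· ^ (p - 1)) h
        simp only [mul_pow, hφp, mul_one] at this
        exact this
      subst hjj
      rw [Units.ext (hinj (mul_left_cancel₀ (hg0 j) h))]
  · rintro (z | ⟨j, z⟩)
    · exact hφ z
    · exact mul_ne_zero (hg0 j) (hφ z)
  · intro B _ _ s t' hL hR α β
    simp only [Sum.elim_inl, Sum.elim_inr] at hL hR
    have h1 : s ^ (p - 1) - t' ^ (p - 1) = 0 := by
      rw [← Pool.Agent.H613R3.Mom.prod_units (k := k) p hodd s t']; exact hL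
    have hst : s ^ (p - 1) = t' ^ (p - 1) := sub_eq_zero.1 h1
    have hw : (t' ^ (p - 1)) ^ (c * rr p i) = 0 := by
      rw [Fintype.prod_prod_type] at hR
      have h2 : ∀ j : Fin (c * rr p i), ∏ z : (ZMod p)ˣ, (s + (g j * φ (z : ZMod p)) • t') =
          (1 - g j ^ (p - 1)) • t' ^ (p - 1) := by
        intro j
        have h3 := Pool.Agent.H613R3.Mom.prod_units (k := k) p hodd s (g j • t')
        rw [sub_smul, one_smul, ← smul_pow, ← hst, ← h3]
        apply Finset.prod_congr rfl
        intro z _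
        rw [smul_smul, mul_comm (g j)]
      simp only at hR
      rw [Finset.prod_congr rfl (fun j _ => h2 j), Finset.prod_smul, Finset.prod_const,
        Finset.card_univ, Fintype.card_fin] at hR
      rcases smul_eq_zero.mp hR with h | h
      · exfalso
        rw [Finset.prod_eq_zero_iff] at h
        obtain ⟨j, _, hj⟩ := h
        exact hgp j (sub_eq_zero.1 hj).symm
      · exact h
    have hcr : c * p ^ i ≠ 0 := by
      have : 0 < p ^ i := Nat.pos_of_ne_zero (pow_ne_zero _ (by omega))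
      exact Nat.mul_ne_zero (by omega) (by omega)
    by_cases hB : Nontrivial B
    · have : CharP B p := charP_of_injective_algebraMap (algebraMap k B).injective p
      have hS : ∀ a ∈ {a : B | ∃ α β : k, a = α • s + β • t'},
          ∃ b ∈ {a : B | ∃ α β : k, a = α • s + β • t'}, a ^ p = b * t' ^ (p - 1) := by
        rintro _ ⟨α, β, rfl⟩
        refine ⟨α ^ p • s + β ^ p • t', ⟨_, _, rfl⟩, ?_⟩
        have e1 : s ^ p = s * t' ^ (p - 1) := by
          rw [← hst, ← pow_succ']
          congr 1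
          omega
        have e2 : t' ^ p = t' * t' ^ (p - 1) := by
          rw [← pow_succ']
          congr 1
          omega
        rw [add_pow_char, smul_pow, smul_pow, e1, e2, add_mul, smul_mul_assoc, smul_mul_assoc]
      obtain ⟨b, _, hb⟩ := frob_iter p (t' ^ (p - 1)) _ hS i (α • s + β • t') ⟨α, β, rfl⟩
      rw [mul_comm c, pow_mul, hb, mul_pow, ← pow_mul (t' ^ (p - 1)), mul_comm (rr p i) c, hw,
        mul_zero]
    · have := not_nontrivial_iff_subsingleton.mp hB
      exact Subsingleton.elim _ _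

end large

end Pool.Agent.Y805.Mom
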