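import Pool.Agent.Y805.Mom

/-!
Characteristic two.
-/

set_option autoImplicit false

namespace Pool.Agent.Y805.Mom

open Finset Pool.Agent.Results.MP_487945_co.PositiveChar

universe u

section two

variable {k : Type u} [Field k]

def P2 (x : k) : Fin 3 → k := ![1, 1 + x, x]
def Q2 (x : k) : Fin 3 → k := ![x, 1, 1 + x]

lemma cross2 (h2 : (2 : k) = 0) (x y : k) (a : Fin 3) :
    ∏ b : Fin 3, (P2 x a * Q2 y b - P2 y b * Q2 x a) =
      (y ^ 2 + y) * (x ^ 3 + x ^ 2 + 1) - (y ^ 3 + y ^ 2 + 1) * (x ^ 2 + x) := by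
  rw [Fin.prod_univ_three]
  fin_cases a
  · simp [P2, Q2]
    linear_combination (-1 * x * y - 1 * x * y ^ 2 + 1 * x ^ 2 + 1 * x ^ 2 * y +
      1 * x ^ 2 * y ^ 2 + 1 * x ^ 2 * y ^ 3 - 1 * x ^ 3 * y - 1 * x ^ 3 * y ^ 2) * h2
  · simp [P2, Q2]
    linear_combination (-1 * y ^ 2 + 1 * x * y) * h2
  · simp [P2, Q2]
    linear_combination (-1 * y - 1 * y ^ 2 + 1 * x + 1 * x * y ^ 3 + 1 * x ^ 2 -
      1 * x ^ 2 * y ^ 2 + 1 * x ^ 2 * y ^ 3 - 1 * x ^ 3 * y ^ 2) * h2

lemma prod2 {B : Type u} [CommRing B] [Algebra k B] (h2 : (2 : k) = 0) (L1 L2 : B)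
    (hU : L1 * L2 * (L1 + L2) = 0) (x : k) :
    ∏ b : Fin 3, (P2 x b • L1 + Q2 x b • L2) =
      (x ^ 2 + x) • (L1 ^ 3 + L1 ^ 2 * L2 + L2 ^ 3) := by
  have h2B : (2 : B) = 0 := by
    have := congrArg (algebraMap k B) h2
    rwa [map_ofNat, map_zero] at this
  rw [Fin.prod_univ_three]
  simp only [P2, Q2, Matrix.cons_val_zero, Matrix.cons_val_one,
    Matrix.cons_val_two, Matrix.head_cons, Matrix.tail_cons, Matrix.cons_val, Algebra.smul_def,
    map_add, map_one, map_pow]
  set X := algebraMap k B x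
  linear_combination (X ^ 3 + X ^ 2 + 1) * hU + (1 * X * L1 * L2 ^ 2 + 1 * X * L1 ^ 2 * L2 +
    1 * X ^ 2 * L1 * L2 ^ 2) * h2B

lemma case_two' [Infinite k] [CharP k 2] (i : ℕ) :
    ∃ t : Fin 3 ⊕ (Fin (rr 4 i) × Fin 3) → k, Function.Injective t ∧
      (∀ v, t v ≠ 0) ∧
      ∀ (B : Type u) [CommRing B] [Algebra k B] (s t' : B),
      ∏ l, (s + t (Sum.inl l) • t') = 0 → ∏ r, (s + t (Sum.inr r) • t') = 0 →
      ∀ α β : k, (α • s + β • t') ^ (4 ^ i) = 0 := by
  have h2 : (2 : k) = 0 := by exact_mod_cast CharP.cast_eq_zero k 2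
  have hfacs : ∀ x : k, x ^ 4 - x ≠ 0 → x ≠ 0 ∧ x + 1 ≠ 0 ∧ x ^ 2 + x + 1 ≠ 0 := by
    intro x hx
    have hfac : x * (x + 1) * (x ^ 2 + x + 1) ≠ 0 := by
      intro h
      apply hx
      linear_combination h - (x ^ 3 + x ^ 2 + x) * h2
    exact ⟨fun h => hfac (by rw [h]; ring), fun h => hfac (by rw [h]; ring),
      fun h => hfac (by rw [h]; ring)⟩
  have hg0 : (Polynomial.X ^ 4 - Polynomial.X : Polynomial k) ≠ 0 :=
    FiniteField.X_pow_card_sub_X_ne_zero k (by norm_num)
  obtain ⟨g, hg1, hg2⟩ := exists_seq' (k := k) (Polynomial.X ^ 4 - Polynomial.X) hg0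
    (fun x => Polynomial.C (x ^ 3 + x ^ 2 + 1) * (Polynomial.X ^ 2 + Polynomial.X) -
      Polynomial.C (x ^ 2 + x) * (Polynomial.X ^ 3 + Polynomial.X ^ 2 + 1))
    (fun x hx h => by
      simp only [Polynomial.eval_sub, Polynomial.eval_pow, Polynomial.eval_X] at hx
      obtain ⟨a1, a2, _⟩ := hfacs x hx
      have h3 := congrArg (fun f => Polynomial.coeff f 3) h
      simp only [Polynomial.coeff_sub, Polynomial.coeff_C_mul, Polynomial.coeff_add,
        Polynomial.coeff_X_pow, Polynomial.coeff_X, Polynomial.coeff_one,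
        Polynomial.coeff_zero] at h3
      norm_num at h3
      have h4 : x * (x + 1) = 0 := by
        first
          | linear_combination h3
          | linear_combination -h3
          | (rcases h3 with h5 | h5 <;> [skip; skip] <;> simp_all)
      rcases mul_eq_zero.1 h4 with h5 | h5
      · exact a1 h5
      · exact a2 h5)
    (fun x y h => by
      simp only [Polynomial.eval_sub, Polynomial.eval_pow, Polynomial.eval_X,
        Polynomial.eval_C, Polynomial.eval_mul, Polynomial.eval_add, Polynomial.eval_one] at h ⊢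
      linear_combination -h)
  simp only [Polynomial.eval_sub, Polynomial.eval_pow, Polynomial.eval_X, Polynomial.eval_C,
    Polynomial.eval_mul, Polynomial.eval_add, Polynomial.eval_one] at hg1 hg2
  let P : Fin 3 ⊕ (Fin (rr 4 i) × Fin 3) → k := fun v =>
    v.elim ![1, 0, 1] (fun z => P2 (g z.1) z.2)
  let Q : Fin 3 ⊕ (Fin (rr 4 i) × Fin 3) → k := fun v =>
    v.elim ![0, 1, 1] (fun z => Q2 (g z.1) z.2)
  have hmix : ∀ (u : Fin 3) (n : ℕ) (v : Fin 3),
      (![1, 0, 1] : Fin 3 → k) u * Q2 (g n) v ≠ P2 (g n) v * (![0, 1, 1] : Fin 3 → k) u := by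
    intro u n v h
    obtain ⟨hx0, hx1, hx2⟩ := hfacs (g n) (hg1 n)
    fin_cases u <;> fin_cases v <;> simp [P2, Q2] at h
    all_goals first
      | exact hx0 h
      | exact hx0 h.symm
      | (apply hx0; linear_combination h)
      | (apply hx0; linear_combination -h)
      | (apply hx1; linear_combination h)
      | (apply hx1; linear_combination -h)
      | (apply hx1; linear_combination h + h2)
      | (apply hx1; linear_combination -h + h2)
      | (apply hx1; linear_combination h + g n * h2)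
      | (apply hx1; linear_combination h + (g n + 1) * h2)
      | (apply hx1; linear_combination -h + (g n + 1) * h2)
  have hsame : ∀ (n : ℕ) (u v : Fin 3), u ≠ v →
      P2 (g n) u * Q2 (g n) v ≠ P2 (g n) v * Q2 (g n) u := by
    intro n u v huv h
    obtain ⟨hx0, hx1, hx2⟩ := hfacs (g n) (hg1 n)
    generalize g n = x at h hx0 hx1 hx2
    fin_cases u <;> fin_cases v <;> simp [P2, Q2] at huv h
    all_goals first
      | (apply hx2; linear_combination h + x * h2)
      | (apply hx2; linear_combination -h + x * h2)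
      | (apply hx2; linear_combination h + (x + 1) * h2)
      | (apply hx2; linear_combination -h + (x + 1) * h2)
      | (apply hx2; linear_combination h + (x ^ 2 + x + 1) * h2)
      | (apply hx2; linear_combination -h + (x ^ 2 + x + 1) * h2)
      | (apply hx2; linear_combination h + x ^ 2 * h2)
      | (apply hx2; linear_combination -h + x ^ 2 * h2)
      | (apply hx2; linear_combination h + (x ^ 2 + x) * h2)
      | (apply hx2; linear_combination -h + (x ^ 2 + x) * h2)
      | (apply hx2; linear_combination h)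
      | (apply hx2; linear_combination -h)
      | (apply hx2; linear_combination h + h2)
      | (apply hx2; linear_combination -h + h2)
  have hPQ : ∀ u v, u ≠ v → P u * Q v ≠ P v * Q u := by
    rintro (u | ⟨j, u⟩) (v | ⟨j', v⟩) huv h
    · fin_cases u <;> fin_cases v <;> simp [P, Q] at huv h
    · exact hmix u j' v h
    · exact hmix v j u (by
        have h' : P2 (g j) u * (![0, 1, 1] : Fin 3 → k) v =
          (![1, 0, 1] : Fin 3 → k) v * Q2 (g j) u := h
        rw [h'])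
    · by_cases hjj : j = j'
      · subst hjj
        exact hsame j u v (fun h => huv (by rw [h])) h
      · have h' : P2 (g j) u * Q2 (g j') v - P2 (g j') v * Q2 (g j) u = 0 := sub_eq_zero.2 h
        have h3 := cross2 h2 (g j) (g j') u
        rw [Finset.prod_eq_zero (Finset.mem_univ v) h'] at h3
        have h4 : (j : ℕ) ≠ (j' : ℕ) := fun h => hjj (Fin.ext h)
        exact hg2 j j' h4 (by linear_combination -h3)
  obtain ⟨t, ht, ht0, hk⟩ := moebius (L := Fin 3) (R := Fin (rr 4 i) × Fin 3) P Q hPQ (by simp)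
  refine ⟨t, ht, ht0, ?_⟩
  intro B _ _ s t' hL hR α β
  obtain ⟨L1, L2, hF, hG, hlin⟩ := hk B s t' hL hR
  obtain ⟨α', β', hαβ⟩ := hlin α β
  rw [hαβ]
  have h2B : (2 : B) = 0 := by
    have := congrArg (algebraMap k B) h2
    rwa [map_ofNat, map_zero] at this
  have hU : L1 * L2 * (L1 + L2) = 0 := by
    rw [Fin.prod_univ_three] at hF
    simpa [P, Q] using hF
  have hW : (L1 ^ 3 + L1 ^ 2 * L2 + L2 ^ 3) ^ (rr 4 i) = 0 := by
    rw [Fintype.prod_prod_type] at hG
    have hG' : ∏ j : Fin (rr 4 i), ∏ b : Fin 3, (P2 (g j) b • L1 + Q2 (g j) b • L2) = 0 := hG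
    have e : ∀ j : Fin (rr 4 i), ∏ b : Fin 3, (P2 (g j) b • L1 + Q2 (g j) b • L2) =
        (g j ^ 2 + g j) • (L1 ^ 3 + L1 ^ 2 * L2 + L2 ^ 3) := fun j => prod2 h2 L1 L2 hU (g j)
    simp only [e] at hG'
    rw [Finset.prod_smul, Finset.prod_const, Finset.card_univ, Fintype.card_fin] at hG'
    rcases smul_eq_zero.mp hG' with h | h
    · exfalso
      rw [Finset.prod_eq_zero_iff] at h
      obtain ⟨j, _, hj⟩ := h
      obtain ⟨a1, a2, _⟩ := hfacs (g j) (hg1 j)
      have h4 : g j * (g j + 1) = 0 := by linear_combination hj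
      rcases mul_eq_zero.1 h4 with h5 | h5
      · exact a1 h5
      · exact a2 h5
    · exact h
  have hS : ∀ a ∈ {a : B | ∃ α β : k, a = α • L1 + β • L2},
      ∃ b ∈ {a : B | ∃ α β : k, a = α • L1 + β • L2},
        a ^ 4 = b * (L1 ^ 3 + L1 ^ 2 * L2 + L2 ^ 3) := by
    rintro _ ⟨α, β, rfl⟩
    refine ⟨α ^ 4 • L1 + β ^ 4 • L2, ⟨_, _, rfl⟩, ?_⟩
    simp only [Algebra.smul_def, map_pow]
    set a := algebraMap k B α
    set b := algebraMap k B β
    linear_combination (-(a ^ 4 * (L1 + L2)) - b ^ 4 * L1) * hU +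
      (a ^ 4 * L1 ^ 2 * L2 ^ 2 + 2 * a ^ 3 * b * L1 ^ 3 * L2 + 3 * a ^ 2 * b ^ 2 * L1 ^ 2 * L2 ^ 2 +
        2 * a * b ^ 3 * L1 * L2 ^ 3) * h2B
  obtain ⟨b, _, hb⟩ := frob_iter 4 (L1 ^ 3 + L1 ^ 2 * L2 + L2 ^ 3) _ hS i
    (α' • L1 + β' • L2) ⟨α', β', rfl⟩
  rw [hb, hW, mul_zero]

end two

end Pool.Agent.Y805.Mom
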