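import Mathlib

set_option autoImplicit false
open Filter Topology MeasureTheory Set
open scoped ENNReal

namespace Pool.Agent.Y805.Pol

/-- The `N`-point Riesz `s`-polarization constant of `K`. -/
noncomputable def pol (s : ℝ) (K : Set ℝ) (N : ℕ) : ℝ≥0∞ :=
  ⨆ (x : Fin N → ℝ) (_ : ∀ i, x i ∈ K), ⨅ y ∈ K, ∑ j, (ENNReal.ofReal |y - x j|) ^ (-s)

lemma rpow_anti {s : ℝ} (hs : 0 ≤ s) {a b : ℝ≥0∞} (h : a ≤ b) : b ^ (-s) ≤ a ^ (-s) := by
  rw [ENNReal.rpow_neg, ENNReal.rpow_neg, ENNReal.inv_le_inv]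
  exact ENNReal.rpow_le_rpow h hs

lemma mul_rpow_neg {s : ℝ} (hs : 0 ≤ s) {c : ℝ≥0∞} (hc : c ≠ 0) (hc' : c ≠ ⊤) (a : ℝ≥0∞) :
    (c * a) ^ (-s) = c ^ (-s) * a ^ (-s) := by
  rw [ENNReal.rpow_neg, ENNReal.rpow_neg, ENNReal.rpow_neg, ENNReal.mul_rpow_of_nonneg _ _ hs,
    ENNReal.mul_inv]
  · left
    simp [ENNReal.rpow_eq_zero_iff, hc, hc']
  · left
    simp [ENNReal.rpow_eq_top_iff, hc, hc']

lemma le_pol {s : ℝ} {ι : Type*} [Fintype ι] {K : Set ℝ} {N : ℕ} (hcard : Fintype.card ι ≤ N)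
    (hK : K.Nonempty) (w : ι → ℝ) (hw : ∀ i, w i ∈ K) {B : ℝ≥0∞}
    (hB : ∀ y ∈ K, B ≤ ∑ i, (ENNReal.ofReal |y - w i|) ^ (-s)) : B ≤ pol s K N := by
  classical
  obtain ⟨k0, hk0⟩ := hK
  let e : ι ↪ Fin N := (Fintype.equivFin ι).toEmbedding.trans (Fin.castLEEmb hcard)
  let x : Fin N → ℝ := Function.extend e w (fun _ => k0)
  have hx : ∀ i, x i ∈ K := by
    intro i
    by_cases h : ∃ a, e a = i
    · obtain ⟨a, rfl⟩ := h
      simp only [x, e.injective.extend_apply]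
      exact hw a
    · simp only [x, Function.extend_apply' _ _ _ h]
      exact hk0
  refine le_trans ?_ (le_iSup₂ (f := fun (x : Fin N → ℝ) (_ : ∀ i, x i ∈ K) =>
    ⨅ y ∈ K, ∑ j, (ENNReal.ofReal |y - x j|) ^ (-s)) x hx)
  refine le_iInf₂ fun y hy => (hB y hy).trans ?_
  have h1 : ∑ i, (ENNReal.ofReal |y - w i|) ^ (-s) =
      ∑ j ∈ (Finset.univ : Finset ι).map e, (ENNReal.ofReal |y - x j|) ^ (-s) := by
    rw [Finset.sum_map]
    refine Finset.sum_congr rfl fun i _ => ?_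
    simp only [x, e.injective.extend_apply]
  rw [h1]
  exact Finset.sum_le_sum_of_subset (Finset.subset_univ _)

/-- The collapse map. -/
noncomputable def col (K : Set ℝ) (y : ℝ) : ℝ := (volume (K ∩ Icc 0 y)).toReal / (volume K).toReal

variable {K : Set ℝ}

lemma vol_fin (hK : K ⊆ Icc 0 1) (A : Set ℝ) : volume (K ∩ A) ≠ ⊤ := by
  have : volume (K ∩ A) ≤ volume (Icc (0 : ℝ) 1) := measure_mono (inter_subset_left.trans hK)
  have h2 : volume (Icc (0 : ℝ) 1) = 1 := by simp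
  rw [h2] at this
  exact ne_top_of_le_ne_top ENNReal.one_ne_top this

lemma vol_fin' (hK : K ⊆ Icc 0 1) : volume K ≠ ⊤ := by
  have := vol_fin hK univ
  simpa using this

lemma col_mono (hK : K ⊆ Icc 0 1) {x y : ℝ} (h : x ≤ y) : col K x ≤ col K y := by
  unfold col
  refine div_le_div_of_nonneg_right ?_ ENNReal.toReal_nonneg
  exact ENNReal.toReal_mono (vol_fin hK _) (measure_mono (inter_subset_inter_right _ (Icc_subset_Icc_right h)))

lemma col_lip1 (hK : K ⊆ Icc 0 1) {x y : ℝ} (h : x ≤ y) :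
    col K y - col K x ≤ (y - x) / (volume K).toReal := by
  unfold col
  rw [← sub_div]
  refine div_le_div_of_nonneg_right ?_ ENNReal.toReal_nonneg
  have h1 : volume (K ∩ Icc 0 y) ≤ volume (K ∩ Icc 0 x) + volume (Ioc x y) := by
    refine le_trans (measure_mono ?_) (measure_union_le _ _)
    intro z hz
    by_cases hzx : z ≤ x
    · exact Or.inl ⟨hz.1, hz.2.1, hzx⟩
    · exact Or.inr ⟨not_le.1 hzx, hz.2.2⟩
  have h2 := ENNReal.toReal_mono (ENNReal.add_ne_top.2 ⟨vol_fin hK _, by simp⟩) h1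
  rw [ENNReal.toReal_add (vol_fin hK _) (by simp), Real.volume_Ioc,
    ENNReal.toReal_ofReal (by linarith)] at h2
  linarith

lemma col_lip (hK : K ⊆ Icc 0 1) (x y : ℝ) :
    |col K y - col K x| ≤ |y - x| / (volume K).toReal := by
  rcases le_total x y with h | h
  · rw [abs_of_nonneg (sub_nonneg.2 (col_mono hK h)), abs_of_nonneg (sub_nonneg.2 h)]
    exact col_lip1 hK h
  · rw [abs_sub_comm, abs_sub_comm y x, abs_of_nonneg (sub_nonneg.2 (col_mono hK h)),
      abs_of_nonneg (sub_nonneg.2 h)]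
    exact col_lip1 hK h

lemma col_mem (hK : K ⊆ Icc 0 1) (hv : 0 < volume K) (y : ℝ) : col K y ∈ Icc (0 : ℝ) 1 := by
  have h0 : 0 < (volume K).toReal := ENNReal.toReal_pos hv.ne' (vol_fin' hK)
  constructor
  · exact div_nonneg ENNReal.toReal_nonneg ENNReal.toReal_nonneg
  · unfold col
    rw [div_le_one h0]
    exact ENNReal.toReal_mono (vol_fin' hK) (measure_mono inter_subset_left)

lemma col_cont (hK : K ⊆ Icc 0 1) (hv : 0 < volume K) : Continuous (col K) := by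
  have h0 : 0 < (volume K).toReal := ENNReal.toReal_pos hv.ne' (vol_fin' hK)
  refine (LipschitzWith.of_dist_le_mul (K := ⟨1 / (volume K).toReal, by positivity⟩) fun x y => ?_).continuous
  rw [Real.dist_eq, Real.dist_eq]
  refine (col_lip hK y x).trans (le_of_eq ?_)
  change _ = 1 / (volume K).toReal * _
  ring

lemma col_surj (hK : K ⊆ Icc 0 1) (hc : IsCompact K) (hv : 0 < volume K) {t : ℝ}
    (ht : t ∈ Icc (0 : ℝ) 1) : ∃ y ∈ K, col K y = t := by
  have h0 : 0 < (volume K).toReal := ENNReal.toReal_pos hv.ne' (vol_fin' hK)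
  have hne : K.Nonempty := by
    rcases K.eq_empty_or_nonempty with h | h
    · simp [h] at hv
    · exact h
  have hcol0 : col K 0 = 0 := by
    unfold col
    have : volume (K ∩ Icc (0 : ℝ) 0) = 0 := by
      refine measure_mono_null inter_subset_right ?_
      simp
    rw [this]
    simp
  have hcol1 : col K 1 = 1 := by
    unfold col
    rw [inter_eq_left.2 hK, div_self h0.ne']
  have hivt := intermediate_value_Icc (zero_le_one' ℝ) (col_cont hK hv).continuousOn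
  rw [hcol0, hcol1] at hivt
  obtain ⟨y, hy, hyt⟩ := hivt ht
  by_cases hne' : (K ∩ Icc 0 y).Nonempty
  · have hcomp : IsCompact (K ∩ Icc 0 y) := hc.inter_right isClosed_Icc
    have hm := hcomp.sSup_mem hne'
    refine ⟨sSup (K ∩ Icc 0 y), hm.1, ?_⟩
    rw [← hyt]
    unfold col
    have : K ∩ Icc 0 (sSup (K ∩ Icc 0 y)) = K ∩ Icc 0 y := by
      apply Subset.antisymm
      · exact inter_subset_inter_right _ (Icc_subset_Icc_right hm.2.2)
      · intro z hz
        exact ⟨hz.1, hz.2.1, le_csSup hcomp.bddAbove hz⟩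
    rw [this]
  · rw [not_nonempty_iff_eq_empty] at hne'
    have ht0 : t = 0 := by
      rw [← hyt]
      unfold col
      simp [hne']
    have hm := hc.sInf_mem hne
    refine ⟨sInf K, hm, ?_⟩
    rw [ht0]
    unfold col
    have : volume (K ∩ Icc 0 (sInf K)) = 0 := by
      refine measure_mono_null (t := {sInf K}) ?_ (by simp)
      intro z hz
      exact le_antisymm hz.2.2 (csInf_le hc.bddBelow hz.1)
    simp [this]

/-- Upper bound: `pol_s(K; N) ≤ |K|^{-s} pol_s([0,1]; N)`. -/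
theorem pol_le {s : ℝ} (hs : 0 < s) (hK : K ⊆ Icc 0 1) (hc : IsCompact K) (hv : 0 < volume K) (N : ℕ) :
    pol s K N ≤ (volume K) ^ (-s) * pol s (Icc 0 1) N := by
  have h0 : 0 < (volume K).toReal := ENNReal.toReal_pos hv.ne' (vol_fin' hK)
  have hofr : ENNReal.ofReal (volume K).toReal = volume K := ENNReal.ofReal_toReal (vol_fin' hK)
  have hcne : (volume K) ^ (-s) ≠ 0 := by
    simp [ENNReal.rpow_eq_zero_iff, hv.ne', vol_fin' hK]
  have hcnt : (volume K) ^ (-s) ≠ ⊤ := by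
    simp [ENNReal.rpow_eq_top_iff, hv.ne', vol_fin' hK]
  refine iSup₂_le fun x hx => ?_
  have key : ((volume K) ^ (-s))⁻¹ * (⨅ y ∈ K, ∑ j, (ENNReal.ofReal |y - x j|) ^ (-s)) ≤
      pol s (Icc 0 1) N := by
    refine le_trans ?_ (le_iSup₂ (f := fun (x : Fin N → ℝ) (_ : ∀ i, x i ∈ Icc (0:ℝ) 1) =>
      ⨅ y ∈ Icc (0:ℝ) 1, ∑ j, (ENNReal.ofReal |y - x j|) ^ (-s)) (fun i => col K (x i))
      (fun i => col_mem hK hv _))
    refine le_iInf₂ fun t ht => ?_
    obtain ⟨y, hy, hyt⟩ := col_surj hK hc hv ht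
    rw [ENNReal.inv_mul_le_iff hcne hcnt]
    refine (iInf₂_le y hy).trans ?_
    rw [Finset.mul_sum]
    refine Finset.sum_le_sum fun j _ => ?_
    rw [← mul_rpow_neg hs.le hv.ne' (vol_fin' hK)]
    refine rpow_anti hs.le ?_
    rw [← hofr, ← ENNReal.ofReal_mul h0.le]
    refine ENNReal.ofReal_le_ofReal ?_
    rw [← hyt]
    have := col_lip hK (x j) y
    rw [le_div_iff₀ h0] at this
    linarith
  rwa [ENNReal.inv_mul_le_iff hcne hcnt] at key

end Pool.Agent.Y805.Pol
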