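import Pool.Agent.Y805.PolA

set_option autoImplicit false
open Filter Topology MeasureTheory Set
open scoped ENNReal

namespace Pool.Agent.Y805.Pol

lemma ofReal_rpow_neg {s u : ℝ} (hu : 0 < u) : (ENNReal.ofReal u) ^ (-s) = ENNReal.ofReal (u ^ (-s)) :=
  ENNReal.ofReal_rpow_of_pos hu

lemma lint_Ioi {s r : ℝ} (hs : 1 < s) (hr : 0 < r) :
    ∫⁻ u in Ioi r, (ENNReal.ofReal |u|) ^ (-s) = ENNReal.ofReal (r ^ (1 - s) / (s - 1)) := by
  have h1 : ∫⁻ u in Ioi r, (ENNReal.ofReal |u|) ^ (-s) = ∫⁻ u in Ioi r, ENNReal.ofReal (u ^ (-s)) := by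
    refine setLIntegral_congr_fun measurableSet_Ioi fun u hu => ?_
    have hu0 : 0 < u := hr.trans hu
    rw [abs_of_pos hu0, ofReal_rpow_neg hu0]
  rw [h1, ← ofReal_integral_eq_lintegral_ofReal (integrableOn_Ioi_rpow_of_lt (by linarith) hr),
    integral_Ioi_rpow_of_lt (by linarith) hr]
  · congr 1
    have : s - 1 ≠ 0 := by linarith
    have h2 : -s + 1 ≠ 0 := by linarith
    rw [show (1 : ℝ) - s = -s + 1 by ring]
    field_simp
    ring
  · refine (ae_restrict_iff' measurableSet_Ioi).2 (Eventually.of_forall fun u hu => ?_)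
    exact Real.rpow_nonneg (hr.trans hu).le _

lemma lint_Iio {s r : ℝ} (hs : 1 < s) (hr : 0 < r) :
    ∫⁻ u in Iio (-r), (ENNReal.ofReal |u|) ^ (-s) = ENNReal.ofReal (r ^ (1 - s) / (s - 1)) := by
  rw [← lint_Ioi hs hr]
  have h := (Measure.measurePreserving_neg (volume : Measure ℝ)).setLIntegral_comp_preimage_emb
    (MeasurableEquiv.neg ℝ).measurableEmbedding (fun u => (ENNReal.ofReal |u|) ^ (-s)) (Iio (-r))
  rw [← h]
  have h2 : (Neg.neg : ℝ → ℝ) ⁻¹' Iio (-r) = Ioi r := by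
    ext u
    simp
  rw [h2]
  simp only [abs_neg]

/-- `P_N ≤ C N^s`. -/
theorem pol_Icc_le {s : ℝ} (hs : 1 < s) {N : ℕ} (hN : 1 ≤ N) :
    pol s (Icc 0 1) N ≤ ENNReal.ofReal (4 ^ s / (s - 1)) * (N : ℝ≥0∞) ^ s := by
  have hs0 : 0 < s := by linarith
  have hN0 : (0 : ℝ) < N := by exact_mod_cast hN
  set r : ℝ := 1 / (4 * N) with hr
  have hr0 : 0 < r := by positivity
  refine iSup₂_le fun x hx => ?_
  set I := ⨅ y ∈ Icc (0 : ℝ) 1, ∑ j, (ENNReal.ofReal |y - x j|) ^ (-s) with hI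
  set B : Set ℝ := ⋃ j, Icc (x j - r) (x j + r) with hB
  set G : Set ℝ := Icc 0 1 \ B with hG
  have hBm : MeasurableSet B := MeasurableSet.iUnion fun j => measurableSet_Icc
  have hGm : MeasurableSet G := measurableSet_Icc.diff hBm
  have hvB : volume B ≤ ENNReal.ofReal (1 / 2) := by
    refine (measure_iUnion_le _).trans ?_
    rw [tsum_fintype]
    have h0 : ∀ j : Fin N, volume (Icc (x j - r) (x j + r)) = ENNReal.ofReal (2 * r) := by
      intro j
      rw [Real.volume_Icc]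
      congr 1
      ring
    simp only [h0]
    rw [Finset.sum_const, Finset.card_univ, Fintype.card_fin, nsmul_eq_mul,
      ← ENNReal.ofReal_natCast, ← ENNReal.ofReal_mul hN0.le]
    refine ENNReal.ofReal_le_ofReal ?_
    rw [hr]
    field_simp
    norm_num
  have hvG : ENNReal.ofReal (1 / 2) ≤ volume G := by
    have h1 : volume (Icc (0 : ℝ) 1) ≤ volume G + volume B := by
      refine le_trans (measure_mono ?_) (measure_union_le _ _)
      intro z hz
      by_cases hzB : z ∈ B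
      · exact Or.inr hzB
      · exact Or.inl ⟨hz, hzB⟩
    have h2 : volume (Icc (0 : ℝ) 1) = ENNReal.ofReal (1 / 2) + ENNReal.ofReal (1 / 2) := by
      rw [← ENNReal.ofReal_add (by norm_num) (by norm_num)]
      simp
      norm_num
    rw [h2] at h1
    have h3 : ENNReal.ofReal (1 / 2) + ENNReal.ofReal (1 / 2) ≤ volume G + ENNReal.ofReal (1 / 2) :=
      h1.trans (add_le_add le_rfl hvB)
    exact (ENNReal.add_le_add_iff_right ENNReal.ofReal_ne_top).1 h3
  have hmeas : ∀ j, Measurable fun y : ℝ => (ENNReal.ofReal |y - x j|) ^ (-s) := by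
    intro j
    fun_prop
  have h1 : I * volume G ≤ ∑ j, ∫⁻ y in G, (ENNReal.ofReal |y - x j|) ^ (-s) := by
    rw [← lintegral_finsetSum _ fun j _ => hmeas j, ← setLIntegral_const]
    refine setLIntegral_mono (Finset.measurable_fun_sum _ fun j _ => hmeas j) fun y hy => ?_
    exact iInf₂_le y hy.1
  have h2 : ∀ j, ∫⁻ y in G, (ENNReal.ofReal |y - x j|) ^ (-s) ≤
      2 * ENNReal.ofReal (r ^ (1 - s) / (s - 1)) := by
    intro j
    have hsub : G ⊆ (fun y => y - x j) ⁻¹' (Ioi r ∪ Iio (-r)) := by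
      intro y hy
      simp only [mem_preimage, mem_union, mem_Ioi, mem_Iio]
      by_contra hcon
      push Not at hcon
      refine hy.2 (mem_iUnion.2 ⟨j, ?_, ?_⟩) <;> linarith [hcon.1, hcon.2]
    calc ∫⁻ y in G, (ENNReal.ofReal |y - x j|) ^ (-s)
        ≤ ∫⁻ y in (fun y => y - x j) ⁻¹' (Ioi r ∪ Iio (-r)), (ENNReal.ofReal |y - x j|) ^ (-s) :=
          lintegral_mono_set hsub
      _ = ∫⁻ u in Ioi r ∪ Iio (-r), (ENNReal.ofReal |u|) ^ (-s) := by
          exact (measurePreserving_sub_right volume (x j)).setLIntegral_comp_preimage_emb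
            (MeasurableEquiv.subRight (x j)).measurableEmbedding
            (fun u => (ENNReal.ofReal |u|) ^ (-s)) (Ioi r ∪ Iio (-r))
      _ ≤ (∫⁻ u in Ioi r, (ENNReal.ofReal |u|) ^ (-s)) + ∫⁻ u in Iio (-r), (ENNReal.ofReal |u|) ^ (-s) :=
          lintegral_union_le _ _ _
      _ = _ := by rw [lint_Ioi hs hr0, lint_Iio hs hr0, two_mul]
  have h3 : I * ENNReal.ofReal (1 / 2) ≤ (N : ℝ≥0∞) * (2 * ENNReal.ofReal (r ^ (1 - s) / (s - 1))) := by
    refine (mul_le_mul_right hvG I).trans (h1.trans ?_)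
    refine (Finset.sum_le_sum fun j _ => h2 j).trans ?_
    simp
  have h4 : I ≤ (N : ℝ≥0∞) * (2 * ENNReal.ofReal (r ^ (1 - s) / (s - 1))) * 2 := by
    have h5 : I = I * ENNReal.ofReal (1 / 2) * 2 := by
      rw [mul_assoc]
      have : ENNReal.ofReal (1 / 2) * 2 = 1 := by
        rw [show (2 : ℝ≥0∞) = ENNReal.ofReal 2 by simp, ← ENNReal.ofReal_mul (by norm_num)]
        norm_num
      rw [this, mul_one]
    rw [h5]
    exact mul_le_mul_left h3 2
  refine h4.trans (le_of_eq ?_)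
  rw [← ENNReal.ofReal_natCast, ENNReal.ofReal_rpow_of_pos hN0, ← ENNReal.ofReal_mul (by positivity),
    show (2 : ℝ≥0∞) = ENNReal.ofReal 2 by simp, ← ENNReal.ofReal_mul (by norm_num),
    ← ENNReal.ofReal_mul (by positivity), ← ENNReal.ofReal_mul (by
      have : 0 < s - 1 := by linarith
      positivity)]
  congr 1
  have hs1 : s - 1 ≠ 0 := by linarith
  have h6 : r ^ (1 - s) = (4 * (N : ℝ)) ^ (s - 1) := by
    rw [hr, one_div, Real.inv_rpow (by positivity), ← Real.rpow_neg (by positivity)]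
    congr 1
    ring
  rw [h6, Real.rpow_sub_one (by positivity), Real.mul_rpow (by norm_num) hN0.le]
  field_simp
  ring

end Pool.Agent.Y805.Pol
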