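import Pool.Agent.Y805.PolB

set_option autoImplicit false
open Filter Topology MeasureTheory Set
open scoped ENNReal

namespace Pool.Agent.Y805.Pol

variable {K : Set ℝ}

/-- the `i`-th tile of length `l` -/
def tile (l : ℝ) (i : ℕ) : Set ℝ := Ico (i * l) ((i + 1) * l)

lemma tile_disj {l : ℝ} (hl : 0 < l) {i j : ℕ} (hij : i ≠ j) : Disjoint (tile l i) (tile l j) := by
  rw [Set.disjoint_left]
  intro x hx hy
  rcases lt_or_gt_of_ne hij with h | h
  · have h1 : ((i : ℝ) + 1) ≤ j := by exact_mod_cast h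
    have := mul_le_mul_of_nonneg_right h1 hl.le
    linarith [hx.2, hy.1]
  · have h1 : ((j : ℝ) + 1) ≤ i := by exact_mod_cast h
    have := mul_le_mul_of_nonneg_right h1 hl.le
    linarith [hy.2, hx.1]

lemma mem_tile {l y : ℝ} (hl : 0 < l) (hy : 0 ≤ y) : y ∈ tile l ⌊y / l⌋₊ := by
  constructor
  · have := Nat.floor_le (div_nonneg hy hl.le)
    rw [le_div_iff₀ hl] at this
    exact this
  · have := Nat.lt_floor_add_one (y / l)
    rw [div_lt_iff₀ hl] at this
    exact this

lemma sum_pair_ge {α β : Type*} [Fintype α] [Fintype β] (F : α × β → ℝ≥0∞) (a : α) :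
    ∑ j, F (a, j) ≤ ∑ q : α × β, F q := by
  rw [Fintype.sum_prod_type]
  exact Finset.single_le_sum (f := fun a => ∑ j, F (a, j)) (fun _ _ => zero_le) (Finset.mem_univ a)

theorem tile_bound {s : ℝ} (hs : 0 < s) (hK : K ⊆ Icc 0 1) (hc : IsCompact K) (hne : K.Nonempty)
    {M : ℕ} (z : Fin M → ℝ) (hz : ∀ j, z j ∈ Icc (0 : ℝ) 1) {δ l : ℝ} (hδ : 0 < δ) (hδ2 : δ ≤ 1 / 2)
    (hl : 0 < l) {B : ℝ≥0∞} (R : ℕ) (hR : B ≤ R)
    (hB : ∀ t ∈ Icc (0 : ℝ) 1, B ≤ ∑ j, (ENNReal.ofReal (|t - z j| + δ)) ^ (-s)) {N : ℕ}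
    (hN : M * (volume (Metric.cthickening l K)).toReal +
      R * (((volume (Metric.cthickening l K)).toReal - (volume K).toReal) / δ) ≤ N * l) :
    (ENNReal.ofReal l) ^ (-s) * B ≤ pol s K N := by
  classical
  set v := (volume (Metric.cthickening l K)).toReal with hv
  have hKc : K ⊆ Metric.cthickening l K := Metric.self_subset_cthickening K
  have hcth : IsCompact (Metric.cthickening l K) := hc.cthickening
  have hVfin : volume (Metric.cthickening l K) ≠ ⊤ := hcth.measure_lt_top.ne
  have hKfin : volume K ≠ ⊤ := vol_fin' hK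
  let S : Finset ℕ := (Finset.range (⌊1 / l⌋₊ + 1)).filter fun i => (K ∩ tile l i).Nonempty
  let good : ℕ → Prop := fun i => ∀ p ∈ Icc ((i : ℝ) * l) ((i + 1) * l), ∃ k ∈ K, |p - k| ≤ δ * l
  let Bd : Finset ℕ := S.filter fun i => ¬ good i
  have hS : ∀ i ∈ S, (K ∩ tile l i).Nonempty := fun i hi => (Finset.mem_filter.1 hi).2
  have hyS : ∀ y ∈ K, ⌊y / l⌋₊ ∈ S := by
    intro y hy
    refine Finset.mem_filter.2 ⟨Finset.mem_range.2 (Nat.lt_succ_of_le (Nat.floor_le_floor ?_)),
      ⟨y, hy, mem_tile hl (hK hy).1⟩⟩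
    exact div_le_div_of_nonneg_right (hK hy).2 hl.le
  have htc : ∀ i ∈ S, tile l i ⊆ Metric.cthickening l K := by
    intro i hi p hp
    obtain ⟨k, hk, hkt⟩ := hS i hi
    refine Metric.mem_cthickening_of_dist_le p k l K hk ?_
    rw [Real.dist_eq, abs_le]
    constructor <;> nlinarith [hp.1, hp.2, hkt.1, hkt.2]
  -- number of nonempty tiles
  have hcount : (S.card : ℝ) * l ≤ v := by
    have h1 : volume (⋃ i ∈ S, tile l i) = ∑ i ∈ S, volume (tile l i) := by
      refine measure_biUnion_finset ?_ fun i _ => measurableSet_Ico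
      intro i _ j _ hij
      exact tile_disj hl hij
    have h2 : ∀ i : ℕ, volume (tile l i) = ENNReal.ofReal l := by
      intro i
      rw [tile, Real.volume_Ico]
      congr 1
      ring
    simp only [h2, Finset.sum_const, nsmul_eq_mul] at h1
    have h3 : volume (⋃ i ∈ S, tile l i) ≤ volume (Metric.cthickening l K) :=
      measure_mono (iUnion₂_subset htc)
    rw [h1] at h3
    have h4 := ENNReal.toReal_mono hVfin h3
    rwa [ENNReal.toReal_mul, ENNReal.toReal_natCast, ENNReal.toReal_ofReal hl.le] at h4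
  -- number of bad tiles
  have hbad : (Bd.card : ℝ) * (δ * l) ≤ v - (volume K).toReal := by
    have h1 : volume (⋃ i ∈ Bd, (tile l i \ K)) = ∑ i ∈ Bd, volume (tile l i \ K) := by
      refine measure_biUnion_finset ?_ fun i _ => measurableSet_Ico.diff hc.measurableSet
      intro i _ j _ hij
      exact (tile_disj hl hij).mono sdiff_subset sdiff_subset
    have h2 : ∀ i ∈ Bd, ENNReal.ofReal (δ * l) ≤ volume (tile l i \ K) := by
      intro i hi
      have hng : ¬ good i := (Finset.mem_filter.1 hi).2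
      simp only [good, not_forall, not_exists, not_and, not_le] at hng
      obtain ⟨p, hp, hpk⟩ := hng
      by_cases hcase : (i : ℝ) * l + δ * l ≤ p
      · have hsub : Ico (p - δ * l) p ⊆ tile l i \ K := by
          intro q hq
          refine ⟨⟨by linarith [hq.1], by linarith [hq.2, hp.2]⟩, fun hqK => ?_⟩
          have := hpk q hqK
          rw [abs_of_nonneg (by linarith [hq.2])] at this
          linarith [hq.1]
        refine le_trans (le_of_eq ?_) (measure_mono hsub)
        rw [Real.volume_Ico]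
        congr 1
        ring
      · have hsub : Ico p (p + δ * l) ⊆ tile l i \ K := by
          intro q hq
          refine ⟨⟨by linarith [hq.1, hp.1], ?_⟩, fun hqK => ?_⟩
          · nlinarith [hq.2]
          · have := hpk q hqK
            rw [abs_sub_comm, abs_of_nonneg (by linarith [hq.1])] at this
            linarith [hq.2]
        refine le_trans (le_of_eq ?_) (measure_mono hsub)
        rw [Real.volume_Ico]
        congr 1
        ring
    have h3 : volume (⋃ i ∈ Bd, (tile l i \ K)) ≤ volume (Metric.cthickening l K \ K) := by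
      refine measure_mono (iUnion₂_subset fun i hi => ?_)
      exact sdiff_subset_sdiff_left (htc i (Finset.mem_filter.1 hi).1)
    rw [h1, measure_sdiff hKc hc.measurableSet.nullMeasurableSet hKfin] at h3
    have h4 : (Bd.card : ℝ≥0∞) * ENNReal.ofReal (δ * l) ≤
        volume (Metric.cthickening l K) - volume K := by
      refine le_trans ?_ h3
      rw [← nsmul_eq_mul]
      exact Finset.card_nsmul_le_sum _ _ _ h2
    have h5 := ENNReal.toReal_mono (ne_top_of_le_ne_top hVfin tsub_le_self) h4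
    rwa [ENNReal.toReal_mul, ENNReal.toReal_natCast, ENNReal.toReal_ofReal (by positivity),
      ENNReal.toReal_sub_of_le (measure_mono hKc) hVfin] at h5
  -- the points
  choose! k hkK hkt using hS
  have hw : ∀ i : ℕ, ∀ j : Fin M, ∃ w : ℝ, (i ∈ S → w ∈ K) ∧
      (i ∈ S → good i → |i * l + l * z j - w| ≤ δ * l) := by
    intro i j
    by_cases hg : good i
    · obtain ⟨w, hwK, hw2⟩ := hg (i * l + l * z j) ⟨by nlinarith [(hz j).1], by nlinarith [(hz j).2]⟩
      exact ⟨w, fun _ => hwK, fun _ _ => hw2⟩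
    · exact ⟨k i, fun hi => hkK i hi, fun _ hg' => absurd hg' hg⟩
  choose w hwK hw2 using hw
  let W : ({i // i ∈ S} × Fin M) ⊕ ({i // i ∈ Bd} × Fin R) → ℝ :=
    Sum.elim (fun q => w q.1 q.2) (fun q => k q.1)
  have hBdS : ∀ i ∈ Bd, i ∈ S := fun i hi => (Finset.mem_filter.1 hi).1
  refine le_pol (ι := ({i // i ∈ S} × Fin M) ⊕ ({i // i ∈ Bd} × Fin R)) ?_ hne W ?_ ?_
  · -- cardinality
    rw [Fintype.card_sum, Fintype.card_prod, Fintype.card_prod, Fintype.card_coe, Fintype.card_coe,
      Fintype.card_fin, Fintype.card_fin]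
    have h1 : (Bd.card : ℝ) * l ≤ (v - (volume K).toReal) / δ := by
      rw [le_div_iff₀ hδ]
      linarith
    have h2 : ((S.card * M + Bd.card * R : ℕ) : ℝ) * l ≤ N * l := by
      refine le_trans ?_ hN
      push_cast
      have h3 := mul_le_mul_of_nonneg_left hcount (Nat.cast_nonneg M : (0 : ℝ) ≤ M)
      have h4 := mul_le_mul_of_nonneg_left h1 (Nat.cast_nonneg R : (0 : ℝ) ≤ R)
      linarith
    have h3 := le_of_mul_le_mul_right h2 hl
    exact_mod_cast h3
  · rintro (⟨i, j⟩ | ⟨i, j⟩)
    · exact hwK i j i.2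
    · exact hkK i (hBdS i i.2)
  · intro y hy
    set i := ⌊y / l⌋₊ with hi
    have hiS : i ∈ S := hyS y hy
    have hyt : y ∈ tile l i := mem_tile hl (hK hy).1
    have hlne : ENNReal.ofReal l ≠ 0 := by simpa using hl
    rw [Fintype.sum_sum_type]
    by_cases hg : good i
    · refine le_trans ?_ (le_add_of_nonneg_right zero_le)
      have h1 : ∑ j, (ENNReal.ofReal |y - w i j|) ^ (-s) ≤
          ∑ a : {i // i ∈ S} × Fin M, (ENNReal.ofReal |y - W (Sum.inl a)|) ^ (-s) :=
        sum_pair_ge (fun a : {i // i ∈ S} × Fin M => (ENNReal.ofReal |y - W (Sum.inl a)|) ^ (-s)) ⟨i, hiS⟩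
      refine le_trans ?_ h1
      have ht : (y - i * l) / l ∈ Icc (0 : ℝ) 1 := by
        constructor
        · exact div_nonneg (by linarith [hyt.1]) hl.le
        · rw [div_le_one hl]
          linarith [hyt.2]
      refine le_trans (mul_le_mul_right (hB _ ht) _) ?_
      rw [Finset.mul_sum]
      refine Finset.sum_le_sum fun j _ => ?_
      rw [← mul_rpow_neg hs.le hlne ENNReal.ofReal_ne_top, ← ENNReal.ofReal_mul hl.le]
      refine rpow_anti hs.le (ENNReal.ofReal_le_ofReal ?_)
      have h2 := hw2 i j hiS hg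
      have h3 : l * |(y - i * l) / l - z j| = |y - (i * l + l * z j)| := by
        rw [← abs_of_pos hl, ← abs_mul, abs_of_pos hl]
        congr 1
        field_simp
        ring
      rw [mul_add, h3]
      calc |y - w i j| = |(y - (i * l + l * z j)) + (i * l + l * z j - w i j)| := by congr 1; ring
        _ ≤ |y - (i * l + l * z j)| + |i * l + l * z j - w i j| := abs_add_le _ _
        _ ≤ _ := by linarith
    · refine le_trans ?_ (le_add_of_nonneg_left zero_le)
      have hiB : i ∈ Bd := Finset.mem_filter.2 ⟨hiS, hg⟩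
      have h1 : ∑ j : Fin R, (ENNReal.ofReal |y - k i|) ^ (-s) ≤
          ∑ a : {i // i ∈ Bd} × Fin R, (ENNReal.ofReal |y - W (Sum.inr a)|) ^ (-s) :=
        sum_pair_ge (fun a : {i // i ∈ Bd} × Fin R => (ENNReal.ofReal |y - W (Sum.inr a)|) ^ (-s)) ⟨i, hiB⟩
      refine le_trans ?_ h1
      rw [Finset.sum_const, Finset.card_univ, Fintype.card_fin, nsmul_eq_mul, mul_comm]
      refine mul_le_mul' hR (rpow_anti hs.le (ENNReal.ofReal_le_ofReal ?_))
      have h2 := hkt i hiS
      rw [abs_le]
      constructor <;> nlinarith [h2.1, h2.2, hyt.1, hyt.2]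

end Pool.Agent.Y805.Pol
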